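import Pool.Agent.Helper25.DX.Trv
import Pool.Agent.Helper89.RAD.Kw
import Pool.Agent.Helper89.TAY.Aff
import Pool.Agent.Helper48.DGR.DgrC

/-! DEGREES OF HULLS OF K-LABELS AT A WINDOW `c > 0`, part 1: truncation and the affine zoom. -/

set_option autoImplicit false

namespace Pool.Agent.Helper25.DX

open Finset Filter Topology Matrix Pool.Agent.Helper69.RK Pool.Agent.Helper31.EC Pool.Agent.Helper31.EC.Sp
open Pool.Agent.Helper40.EL Pool.Agent.Helper89.LX Pool.Agent.Helper3.LF Pool.Agent.Helper84.MT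
open Pool.Agent.Helper95.LF Pool.Agent.Helper3.PR
open Pool.Agent.Helper14.MC
open Pool.Agent.Helper89.RAK (Dmz DomJ KC Lit slf_K)
open Pool.Agent.Helper89.RAD (cnA dp DMA ZW DMD mkD lit_ple mkD_leak mkD_kz zR volD_zoom optD_out)
open Pool.Agent.Helper7.RD (volC volCO volC_eq volC_le_of volCO_le)
open Pool.Agent.Helper52.SL (untF tnF untL tnL nul_trn cellv_chg untF_leak tnF_leak)

noncomputable section

section gen

variable {S : Sp} {M D : ℕ} {κ : Type} {Q : S.VV M} {x : ∀ k, FD (S.F k) (Mon M D)} {R : ∀ k, Setoid (S.F k).Ω}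

/-- optimal forms over K-labels dominate their derivatives -/
theorem opt_dmz {A : κ → Part S} (hR : ∀ k, R k ≤ Setoid.ker (Q.cellv 1 k)) (hx : (gaq Q D).OptfK (KC R) A x)
    (z : Fin M) : Dmz Q z x := (slf_K _ hx).dmz hx.1.1 hR z

/-- the resolution in the truncated space -/
def rt (t : ℝ) (h0 : 0 < t) (R : ∀ k, Setoid (S.F k).Ω) : ∀ k, Setoid ((S.chg S.tr t h0).F k).Ω := R

theorem kz_tnL {t : ℝ} {h0 : 0 < t} {l : Lab S} (h : (KC R).ev l) : (KC (rt t h0 R)).ev (tnL t h0 l) := by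
  filter_upwards [h] with k hk
  exact (tnF_leak t h0 (l k) (R k)).trans hk

/-- VOLUMES OF THE TRUNCATION, one half: small exponents -/
theorem volC_tn_ue [Finite κ] {W : κ → ∀ k, Setoid (S.F k).Ω} (hR : ∀ k, R k ≤ Setoid.ker (Q.cellv 1 k))
    (hx : (gaq Q D).OptfK (KC R) (cs W) x) {θ t : ℝ} (hu : Ue Q x θ) (hθ : θ < t) (h0 : 0 < t) (h1 : t ≤ 1) :
    M - volC (KC R) (cs W) Q D ≤ t * (M - volC (KC (rt t h0 R)) (ct t h0 W) (Q.chg S.tr t h0) D) := by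
  have h2 := tnx_vol_ue hx.1.1 (opt_dmz hR hx) hθ h0 h1 hu
  have h3 := (tnx_ad_ue hx.1.1 (opt_dmz hR hx) hθ h0 h1 hu).1
  have h4 : (gaq (Q.chg S.tr t h0) D).AdfK (KC (rt t h0 R)) (ct t h0 W) (tnx t h0 Q x) := ⟨h3, kz_tnL hx.1.2⟩
  have h5 := volC_le_of h4
  rw [volC_eq hx, ← h2]
  exact mul_le_mul_of_nonneg_left (by linarith) h0.le

theorem volC_tn [Finite κ] {W : κ → ∀ k, Setoid (S.F k).Ω} (hR : ∀ k, R k ≤ Setoid.ker (Q.cellv 1 k))
    (hx : (gaq Q D).OptfK (KC R) (cs W) x) {θ t : ℝ} (hu : Ub Q x θ) (hθ : θ < t) (h0 : 0 < t) (h1 : t ≤ 1) :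
    M - volC (KC R) (cs W) Q D ≤ t * (M - volC (KC (rt t h0 R)) (ct t h0 W) (Q.chg S.tr t h0) D) :=
  volC_tn_ue hR hx (hu.ue hx.1.1) hθ h0 h1

end gen

section sys

variable {S : Sp} {M D : ℕ} {E : ℕ → ℕ} {ι : Type}

/-- the conditions of a system as partitions -/
def wd (s : MSys S M E ι) (R : ∀ k, Setoid (S.F k).Ω) (c : ℝ) : Option ι → ∀ k, Setoid (S.F k).Ω
  | none => R
  | some i => fun k => (s.lf i).La k ⊓ Setoid.ker ((s.lf i).Y.cellv c k)

theorem cs_wd (s : MSys S M E ι) (R : ∀ k, Setoid (S.F k).Ω) (c : ℝ) : cs (wd s R c) = cnA s (dp R) c := by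
  funext i
  rcases i with _ | i
  · rfl
  · rfl

/-- the conditions of the truncated system -/
theorem ct_wd (s : MSys S M E ι) (R : ∀ k, Setoid (S.F k).Ω) {t : ℝ} (h0 : 0 < t) (h1 : t ≤ 1) (c : ℝ) :
    ct t h0 (wd s R (t * c)) = cnA (s.trn t h0 h1) (dp (rt t h0 R)) c := by
  funext i
  rcases i with _ | i
  · rfl
  · funext k
    have e1 : ((s.lf i).Y.chg S.tr t h0).cellv c k = (s.lf i).Y.cellv (t * c) k := cellv_chg (s.lf i).Y t h0 c k
    exact congrArg (fun f => (fc ((s.lf i).La k ⊓ Setoid.ker f : Setoid ((S.F k).chg ⊤ t h0).Ω) :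
      FL ((S.F k).chg ⊤ t h0))) e1.symm

end sys

end

end Pool.Agent.Helper25.DX
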