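import Pool.Agent.Helper4.VZ.Vz

/-! BOXES IN WHICH A FORM IS CONSTANT UP TO A FACTOR: a form which dominates its derivatives in all coordinate directions
with the constant `L` does not change by more than a factor on boxes of side `1 / L`: the size, the Gram matrix, the
matrix of the form itself. -/

set_option autoImplicit false

namespace Pool.Agent.Helper25.DX

open Finset MvPolynomial Matrix Pool.Agent.Helper95.LF Pool.Agent.Helper3.LF Pool.Agent.Helper84.MT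
open Pool.Agent.Helper4.VZ
open Pool.Agent.Helper89.LX (dot_self_nonneg)

noncomputable section

variable {m D : ℕ} {A : Matrix (Mon m D) (Mon m D) ℝ}

/-- the point with the coordinates of `q` in `s` and of `p` outside -/
def mix (p q : Fin m → ℝ) (s : Finset (Fin m)) (i : Fin m) : ℝ := if i ∈ s then q i else p i

theorem mix_empty (p q : Fin m → ℝ) : mix p q ∅ = p := by
  funext i
  simp [mix]

theorem mix_univ (p q : Fin m → ℝ) : mix p q Finset.univ = q := by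
  funext i
  simp [mix]

theorem mix_insert (p q : Fin m → ℝ) {s : Finset (Fin m)} {a : Fin m} (ha : a ∉ s) :
    mix p q (insert a s) = fun i => mix p q s i + (q a - p a) * sgl a i := by
  funext i
  unfold mix sgl
  by_cases h : i = a
  · subst h
    simp [ha]
  · simp [h, Finset.mem_insert, Pi.single_apply]

/-- values -/
theorem vv_box (hs : A.IsSymm) (hA : ∀ x, 0 ≤ x ⬝ᵥ (A *ᵥ x)) {L : ℝ} (hL : 0 < L) (h : ∀ z, Dmv A (sgl z) L)
    (p q : Fin m → ℝ) {t : ℝ} (ht : ∀ i, |q i - p i| ≤ t) :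
    vv q ⬝ᵥ (A *ᵥ vv q) ≤ Real.exp (2 * L * t * m) * (vv p ⬝ᵥ (A *ᵥ vv p)) := by
  have key : ∀ s : Finset (Fin m), vv (mix p q s) ⬝ᵥ (A *ᵥ vv (mix p q s)) ≤
      Real.exp (2 * L * t * s.card) * (vv p ⬝ᵥ (A *ᵥ vv p)) := by
    intro s
    induction s using Finset.induction_on with
    | empty =>
      rw [mix_empty, Finset.card_empty, Nat.cast_zero, mul_zero, Real.exp_zero, one_mul]
    | insert a s ha ih =>
      rw [mix_insert p q ha, Finset.card_insert_of_notMem ha]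
      refine (vv_line hs hA hL (h a) (mix p q s) (q a - p a)).trans ?_
      refine (mul_le_mul_of_nonneg_left ih (Real.exp_pos _).le).trans ?_
      rw [← mul_assoc, ← Real.exp_add]
      apply mul_le_mul_of_nonneg_right _ (hA _)
      apply Real.exp_le_exp.mpr
      have h1 := ht a
      have h2 : 2 * L * |q a - p a| ≤ 2 * L * t := mul_le_mul_of_nonneg_left h1 (by linarith)
      push_cast
      linarith
  have h1 := key Finset.univ
  rwa [mix_univ, Finset.card_univ, Fintype.card_fin] at h1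

/-- gradients -/
theorem Wq_box (hs : A.IsSymm) (hA : ∀ x, 0 ≤ x ⬝ᵥ (A *ᵥ x)) {L : ℝ} (hL : 0 < L) (h : ∀ z, Dmv A (sgl z) L)
    (p q f : Fin m → ℝ) {t : ℝ} (ht : ∀ i, |q i - p i| ≤ t) :
    (Wq m D q *ᵥ f) ⬝ᵥ (A *ᵥ (Wq m D q *ᵥ f)) ≤
      Real.exp (2 * L * t * m) * ((Wq m D p *ᵥ f) ⬝ᵥ (A *ᵥ (Wq m D p *ᵥ f))) := by
  have key : ∀ s : Finset (Fin m), (Wq m D (mix p q s) *ᵥ f) ⬝ᵥ (A *ᵥ (Wq m D (mix p q s) *ᵥ f)) ≤
      Real.exp (2 * L * t * s.card) * ((Wq m D p *ᵥ f) ⬝ᵥ (A *ᵥ (Wq m D p *ᵥ f))) := by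
    intro s
    induction s using Finset.induction_on with
    | empty =>
      rw [mix_empty, Finset.card_empty, Nat.cast_zero, mul_zero, Real.exp_zero, one_mul]
    | insert a s ha ih =>
      rw [mix_insert p q ha, Finset.card_insert_of_notMem ha]
      refine (Wq_line hs hA hL (h a) (mix p q s) f (q a - p a)).trans ?_
      refine (mul_le_mul_of_nonneg_left ih (Real.exp_pos _).le).trans ?_
      rw [← mul_assoc, ← Real.exp_add]
      apply mul_le_mul_of_nonneg_right _ (hA _)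
      apply Real.exp_le_exp.mpr
      have h1 := ht a
      have h2 : 2 * L * |q a - p a| ≤ 2 * L * t := mul_le_mul_of_nonneg_left h1 (by linarith)
      push_cast
      linarith
  have h1 := key Finset.univ
  rwa [mix_univ, Finset.card_univ, Fintype.card_fin] at h1

theorem nodp_sub (p q : Fin m → ℝ) (r r' : ℝ) (j : Fin m → Fin (D + 1)) {t : ℝ} (ht : ∀ i, |q i - p i| ≤ t) (i : Fin m) :
    |nodp D q r' j i - nodp D p r j i| ≤ t + |r' - r| := by
  have e1 : nodp D q r' j i - nodp D p r j i = (q i - p i) + (r' - r) * nod D (j i) := by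
    unfold nodp
    ring
  rw [e1]
  refine (abs_add_le _ _).trans (add_le_add (ht i) ?_)
  rw [abs_mul, abs_of_nonneg (nod_nonneg D _)]
  have h1 := nod_le D _ (Nat.le_of_lt_succ (j i).2)
  nlinarith [abs_nonneg (r' - r)]

/-- the size on another cell -/
theorem phi_box (hs : A.IsSymm) (hA : ∀ x, 0 ≤ x ⬝ᵥ (A *ᵥ x)) {L : ℝ} (hL : 0 < L) (h : ∀ z, Dmv A (sgl z) L)
    (p q : Fin m → ℝ) {t : ℝ} (ht : ∀ i, |q i - p i| ≤ t) (r r' : ℝ) :
    phi r' A q ≤ Real.exp (2 * L * (t + |r' - r|) * m) * phi r A p := by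
  unfold phi
  rw [Finset.mul_sum]
  exact Finset.sum_le_sum fun j _ => vv_box hs hA hL h _ _ (nodp_sub p q r r' j ht)

/-- the Gram matrix on another cell -/
theorem Jq_box (hs : A.IsSymm) (hA : ∀ x, 0 ≤ x ⬝ᵥ (A *ᵥ x)) {L : ℝ} (hL : 0 < L) (h : ∀ z, Dmv A (sgl z) L)
    (p q f : Fin m → ℝ) {t : ℝ} (ht : ∀ i, |q i - p i| ≤ t) (r r' : ℝ) :
    f ⬝ᵥ (Jq r' A q *ᵥ f) ≤ Real.exp (2 * L * (t + |r' - r|) * m) * (f ⬝ᵥ (Jq r A p *ᵥ f)) := by
  rw [Jq_qf, Jq_qf, Finset.mul_sum]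
  exact Finset.sum_le_sum fun j _ => Wq_box hs hA hL h _ _ f (nodp_sub p q r r' j ht)

/-- THE SIZE OF THE MATRIX of a form which dominates its derivatives with the constant `L` -/
theorem exists_size (m D : ℕ) : ∃ C : ℝ, 0 ≤ C ∧ ∀ (A : Matrix (Mon m D) (Mon m D) ℝ), PdM A → ∀ (L : ℝ), 1 ≤ L →
    (∀ z, Dmv A (sgl z) L) → ∀ (r K : ℝ) (p : Fin m → ℝ), 0 ≤ r → r ≤ L⁻¹ → 1 ≤ K → (∀ i, |p i| + 1 ≤ K) →
    ∀ x : Mon m D → ℝ, x ⬝ᵥ (A *ᵥ x) ≤ C * K ^ (2 * D) * L ^ (2 * D) * phi r A p * (x ⬝ᵥ x) := by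
  obtain ⟨C, hC0, hC⟩ := exists_cap m D
  refine ⟨C * Real.exp (4 * m), by positivity, fun A hA L hL h r K p hr hrL hK hp x => ?_⟩
  have hL0 : 0 < L := by linarith
  have hLi : 0 < L⁻¹ := inv_pos.mpr hL0
  have h1 := hC A hA L⁻¹ (K * L) p hLi (by nlinarith) (fun i => by
    rw [mul_assoc, mul_inv_cancel₀ hL0.ne', mul_one]
    exact hp i) x
  have h2 := phi_box hA.1 (fun y => hA.nonneg y) hL0 h p p (t := 0) (fun i => by rw [sub_self, abs_zero]) r L⁻¹
  have h3 : 2 * L * (0 + |L⁻¹ - r|) * m ≤ 4 * m := by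
    have h4 : |L⁻¹ - r| ≤ L⁻¹ := by
      rw [abs_le]
      constructor <;> linarith
    have h5 : L * |L⁻¹ - r| ≤ 1 := by
      have := mul_le_mul_of_nonneg_left h4 hL0.le
      rwa [mul_inv_cancel₀ hL0.ne'] at this
    have h6 : (0 : ℝ) ≤ m := Nat.cast_nonneg m
    nlinarith
  have h4 : phi L⁻¹ A p ≤ Real.exp (4 * m) * phi r A p :=
    h2.trans (mul_le_mul_of_nonneg_right (Real.exp_le_exp.mpr h3) (phi_nonneg _ (fun y => hA.nonneg y) _))
  refine h1.trans ?_
  apply mul_le_mul_of_nonneg_right _ (dot_self_nonneg x)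
  rw [mul_pow]
  calc C * (K ^ (2 * D) * L ^ (2 * D)) * phi L⁻¹ A p
      ≤ C * (K ^ (2 * D) * L ^ (2 * D)) * (Real.exp (4 * m) * phi r A p) :=
        mul_le_mul_of_nonneg_left h4 (by positivity)
    _ = C * Real.exp (4 * m) * K ^ (2 * D) * L ^ (2 * D) * phi r A p := by ring

end

end Pool.Agent.Helper25.DX
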