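import Pool.Agent.Helper25.DX.Pre
import Pool.Agent.Helper18.SRT.Mx

/-! DEGREES OF HULLS OF K-LABELS AT A WINDOW `c > 0`, in the vocabulary of `Helper29/MX/St`: one degree, which depends on
the number of coordinates, the dimensions of the leaves and the number `g` (total exponent less than `c (M + g)`, or top
exponent less than `c (1 + g)`) only, attains the volumes of all prefixes. -/

set_option autoImplicit false

namespace Pool.Agent.Helper25.DX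

open Finset Filter Topology Matrix Pool.Agent.Helper69.RK Pool.Agent.Helper31.EC Pool.Agent.Helper31.EC.Sp
open Pool.Agent.Helper40.EL Pool.Agent.Helper89.LX Pool.Agent.Helper3.LF Pool.Agent.Helper84.MT
open Pool.Agent.Helper36.AM (STu MCl)
open Pool.Agent.Helper89.RAK (KC Lit)
open Pool.Agent.Helper89.RAD (cnA dp)
open Pool.Agent.Helper48.ROK (nrm nrm_lit nrm_fc optfK_res volC_res AttS)
open Pool.Agent.Helper87.NSL (cndR KnS)
open Pool.Agent.Helper29.MX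
open Pool.Agent.Helper18.PRM (vcrd scrd Pt_crd cndR_crd)
open Pool.Agent.Helper7.RD (volC volCO volC_eq)

noncomputable section

variable {S : Sp} {M D : ℕ} {E : ℕ → ℕ} {ι : Type}

/-- the hypothesis: the exponents of the optimal forms of the window `c`; `th` top exponent, `th'` exponent of the volume -/
def Hyp (s : MSys S M E ι) (R : Rsl S) (c θ θ' : ℝ) : Prop :=
  ∀ (D : ℕ) (x : ∀ k, FD (S.F k) (Mon M D)), KOp s R D c x → Ue s.Q x θ ∧ Ub s.Q x θ'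

/-- one number of coordinates, both bounds -/
theorem degx_one {N : ℕ} (hst : ∀ m, m < N + 1 → STu m) {g : ℕ} (hg : 1 ≤ g) : ∃ D₁ : ℕ, 1 ≤ D₁ ∧ ∀ D₀, D₁ ≤ D₀ →
    ∀ (ι : Type) [Finite ι] (E : ℕ → ℕ) (S : Sp) (s : MSys S (N + 1) E ι) (R : Rsl S)
      (_ : Pt s R) (_ : ∀ i, (s.lf i).e ≤ g) (c θ θ' : ℝ), 0 < c → c < 1 → θ < 1 → θ' < c * ((N : ℝ) + 1 + g) →
      Hyp s R c θ θ' → ∀ D, volK s R D₀ c ≤ volK s R D c := by
  obtain ⟨D₁, h1, h2⟩ := deg_winb hst hg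
  refine ⟨D₁, h1, fun D₀ hD ι _ E S s R hP he c θ θ' h0 hc h3 h4 hu D => ?_⟩
  have h5 := h2 D₀ hD ι E S s (nrm R s.Q) (nrm_lit R s.Q) he c θ θ' h0 hc h3 h4 D fun x hx => hu D x (by
    unfold KOp
    rw [cndR_eq]
    exact (optfK_res (nrm_fc hP)).mp hx)
  rw [volC_res (nrm_fc hP), volC_res (nrm_fc hP)] at h5
  rw [volK_eq, volK_eq, cndR_eq]
  exact h5

/-- one number of coordinates, top exponent -/
theorem degx_onee {N : ℕ} (hst : ∀ m, m < N + 1 → STu m) {g : ℕ} (hg : 1 ≤ g) : ∃ D₁ : ℕ, 1 ≤ D₁ ∧ ∀ D₀, D₁ ≤ D₀ →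
    ∀ (ι : Type) [Finite ι] (E : ℕ → ℕ) (S : Sp) (s : MSys S (N + 1) E ι) (R : Rsl S)
      (_ : Pt s R) (_ : ∀ i, (s.lf i).e ≤ g) (c θ : ℝ), 0 < c → c < 1 → θ < 1 → θ < c * (1 + g) →
      (∀ (D : ℕ) (x : ∀ k, FD (S.F k) (Mon (N + 1) D)), KOp s R D c x → Ue s.Q x θ) →
        ∀ D, volK s R D₀ c ≤ volK s R D c := by
  obtain ⟨D₁, h1, h2⟩ := deg_wine hst hg
  refine ⟨D₁, h1, fun D₀ hD ι _ E S s R hP he c θ h0 hc h3 h4 hu D => ?_⟩
  have h5 := h2 D₀ hD ι E S s (nrm R s.Q) (nrm_lit R s.Q) he c θ h0 hc h3 h4 D fun x hx => hu D x (by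
    unfold KOp
    rw [cndR_eq]
    exact (optfK_res (nrm_fc hP)).mp hx)
  rw [volC_res (nrm_fc hP), volC_res (nrm_fc hP)] at h5
  rw [volK_eq, volK_eq, cndR_eq]
  exact h5

/-- optimal forms of a prefix -/
theorem Hyp.pre {s : MSys S M E ι} {R : Rsl S} {c θ θ' : ℝ} (h : Hyp s R c θ θ') {j : ℕ} (hj : j ≤ M) :
    Hyp (scrd (Fin.castLE hj) s) R c θ θ' := by
  intro D y hy
  unfold KOp at hy
  rw [cndR_crd] at hy
  obtain ⟨x, hx⟩ := (gaq s.Q D).exists_optfK (KZ R) (cndR s R c)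
  have h1 := h D x hx
  have hP : ∀ k ω a, (scrd (Fin.castLE hj) s).Q.v k ω a = s.Q.v k ω (Fin.castLE hj a) := fun _ _ _ => rfl
  exact ⟨Ue.part (σ := Fin.castLE hj) (Q := s.Q) hP h1.1 hx (Fin.castLE_injective hj) hy.1,
    Ub.part (σ := Fin.castLE hj) (Q := s.Q) hP h1.2 hx (Fin.castLE_injective hj) hy.1⟩

/-- the volumes of the prefixes are volumes of systems -/
theorem volK_pre (s : MSys S M E ι) (R : Rsl S) (c : ℝ) {j : ℕ} (hj : j ≤ M) (D : ℕ) :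
    volK (scrd (Fin.castLE hj) s) R D c = volC (KZ R) (cndR s R c) (pfx s.Q hj) D := by
  rw [volK_eq, cndR_crd]
  rfl

/-- all prefixes, from each prefix -/
theorem att_of {D₀ : ℕ} {s : MSys S M E ι} {R : Rsl S} {c : ℝ}
    (h : ∀ (N : ℕ) (hj : N + 1 ≤ M) (D : ℕ), volK (scrd (Fin.castLE hj) s) R D₀ c ≤
      volK (scrd (Fin.castLE hj) s) R D c) : AttS D₀ c s R := by
  intro j hj
  rcases j with _ | N
  · refine (Pool.Agent.Helper7.RD.volC_le_M).trans ?_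
    rw [Pool.Agent.Helper18.SRT.volP_zero, Nat.cast_zero]
  · refine le_ciInf fun D => ?_
    have := h N hj D
    rw [volK_pre, volK_pre] at this
    exact this

/-- **DEGREES OF THE K-HULLS OF THE WINDOW `c`**: top exponent less than `1`, exponent of the volume less than
`c (M + g)` -/
theorem degx (hst : ∀ m, m < M → STu m) {g : ℕ} (hg : 1 ≤ g) : ∃ D₁ : ℕ, 1 ≤ D₁ ∧ ∀ D₀, D₁ ≤ D₀ →
    ∀ (ι : Type) [Finite ι] (E : ℕ → ℕ) (S : Sp) (s : MSys S M E ι) (R : Rsl S)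
      (_ : Pt s R) (_ : ∀ i, (s.lf i).e ≤ g) (c θ θ' : ℝ), 0 < c → c < 1 → θ < 1 → θ' < c * ((M : ℝ) + g) →
      Hyp s R c θ θ' → AttS D₀ c s R := by
  have h1 : ∀ N : ℕ, N < M → ∃ D₁ : ℕ, 1 ≤ D₁ ∧ ∀ D₀, D₁ ≤ D₀ →
    ∀ (ι : Type) [Finite ι] (E : ℕ → ℕ) (S : Sp) (s : MSys S (N + 1) E ι) (R : Rsl S)
      (_ : Pt s R) (_ : ∀ i, (s.lf i).e ≤ g + M) (c θ θ' : ℝ), 0 < c → c < 1 → θ < 1 →
      θ' < c * ((N : ℝ) + 1 + (g + M : ℕ)) → Hyp s R c θ θ' → ∀ D, volK s R D₀ c ≤ volK s R D c := fun N hN =>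
    degx_one (fun m hm => hst m (by omega)) (by omega)
  choose! D₁ h2 h3 using h1
  refine ⟨(∑ N ∈ Finset.range M, D₁ N) + 1, Nat.le_add_left _ _, fun D₀ hD ι _ E S s R hP he c θ θ' h0 hc hθ hθ'
    hu => att_of fun N hj D => ?_⟩
  have h4 : D₁ N ≤ ∑ N ∈ Finset.range M, D₁ N :=
    Finset.single_le_sum (fun _ _ => Nat.zero_le _) (Finset.mem_range.mpr (show N < M by omega))
  refine h3 N (by omega) D₀ (by omega) ι E S (scrd (Fin.castLE hj) s) R (Pt_crd _ hP) (fun i => (he i).trans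
    (Nat.le_add_right g M)) c θ θ' h0 hc hθ (hθ'.trans_le ?_) (hu.pre hj) D
  apply mul_le_mul_of_nonneg_left _ h0.le
  push_cast
  have : (0 : ℝ) ≤ N := Nat.cast_nonneg N
  linarith

/-- **DEGREES OF THE K-HULLS OF THE WINDOW `c`**: top exponent less than `1` and `c (1 + g)` -/
theorem degxe (hst : ∀ m, m < M → STu m) {g : ℕ} (hg : 1 ≤ g) : ∃ D₁ : ℕ, 1 ≤ D₁ ∧ ∀ D₀, D₁ ≤ D₀ →
    ∀ (ι : Type) [Finite ι] (E : ℕ → ℕ) (S : Sp) (s : MSys S M E ι) (R : Rsl S)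
      (_ : Pt s R) (_ : ∀ i, (s.lf i).e ≤ g) (c θ : ℝ), 0 < c → c < 1 → θ < 1 → θ < c * (1 + g) →
      (∀ (D : ℕ) (x : ∀ k, FD (S.F k) (Mon M D)), KOp s R D c x → Ue s.Q x θ) → AttS D₀ c s R := by
  have h1 : ∀ N : ℕ, N < M → ∃ D₁ : ℕ, 1 ≤ D₁ ∧ ∀ D₀, D₁ ≤ D₀ →
    ∀ (ι : Type) [Finite ι] (E : ℕ → ℕ) (S : Sp) (s : MSys S (N + 1) E ι) (R : Rsl S)
      (_ : Pt s R) (_ : ∀ i, (s.lf i).e ≤ g) (c θ : ℝ), 0 < c → c < 1 → θ < 1 → θ < c * (1 + g) →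
      (∀ (D : ℕ) (x : ∀ k, FD (S.F k) (Mon (N + 1) D)), KOp s R D c x → Ue s.Q x θ) →
        ∀ D, volK s R D₀ c ≤ volK s R D c := fun N hN => degx_onee (fun m hm => hst m (by omega)) hg
  choose! D₁ h2 h3 using h1
  refine ⟨(∑ N ∈ Finset.range M, D₁ N) + 1, Nat.le_add_left _ _, fun D₀ hD ι _ E S s R hP he c θ h0 hc hθ hθ'
    hu => att_of fun N hj D => ?_⟩
  have h4 : D₁ N ≤ ∑ N ∈ Finset.range M, D₁ N :=
    Finset.single_le_sum (fun _ _ => Nat.zero_le _) (Finset.mem_range.mpr (show N < M by omega))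
  refine h3 N (by omega) D₀ (by omega) ι E S (scrd (Fin.castLE hj) s) R (Pt_crd _ hP) he c θ h0 hc hθ hθ' ?_ D
  intro D y hy
  unfold KOp at hy
  rw [cndR_crd] at hy
  obtain ⟨x, hx⟩ := (gaq s.Q D).exists_optfK (KZ R) (cndR s R c)
  have hP : ∀ k ω a, (scrd (Fin.castLE hj) s).Q.v k ω a = s.Q.v k ω (Fin.castLE hj a) := fun _ _ _ => rfl
  exact Ue.part (σ := Fin.castLE hj) (Q := s.Q) hP (hu D x hx) hx (Fin.castLE_injective hj) hy.1

end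

end Pool.Agent.Helper25.DX
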