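import Pool.Agent.Helper25.DX.Top
import Pool.Agent.Helper84.KR.Aj

/-! EXPONENTS of dominated forms and of the parts of forms in some of the coordinates. -/

set_option autoImplicit false

namespace Pool.Agent.Helper25.DX

open Finset Filter Topology Matrix Pool.Agent.Helper69.RK Pool.Agent.Helper31.EC Pool.Agent.Helper31.EC.Sp
open Pool.Agent.Helper40.EL Pool.Agent.Helper89.LX Pool.Agent.Helper3.LF Pool.Agent.Helper84.MT
open Pool.Agent.Helper95.LF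
open Pool.Agent.Helper14.MC
open Pool.Agent.Helper4.VZ (sgl sgl_Jq ee je je_one_le je_pow)
open Pool.Agent.Helper89.RAK (DomJ)
open Pool.Agent.Helper84.KR (prt prt_adf domJ_prt exd exd_adf prm prm_Jq prm_pd GQ_prm)

noncomputable section

variable {S : Sp} {M m D : ℕ} {κ κ' : Type} {A : κ → Part S} {B : κ' → Part S}

/-- TRANSFER of typical properties to dominated forms -/
theorem dom_tr {Q : S.VV M} {x y : ∀ k, FD (S.F k) (Mon M D)} (hx : (gaq Q D).Adf A x) (hy : (gaq Q D).Adf B y)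
    (hxy : DomJ x y) (P P' : ∀ k, (S.F k).Ω → Matrix (Mon M D) (Mon M D) ℝ → Prop) (e : ℝ) (he : 0 < e)
    (hP : ∀ᶠ k in UF, ∀ ω (A B : Matrix (Mon M D) (Mon M D) ℝ), PdM A → PdM B →
      (∀ v, qf B v ≤ 2 ^ (e * (S.F k).n) * qf A v) → P k ω A → P' k ω B)
    (h : Sp.Typ (S := (lb x).sp) (fun k (ω : (x k).l.T.Ω) => P k ((x k).l.p.π ω) ((x k).g ω))) :
    Sp.Typ (S := (lb y).sp) (fun k (ω : (y k).l.T.Ω) => P' k ((y k).l.p.π ω) ((y k).g ω)) := by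
  have h3 := (hxy _ he).add h
  rw [add_zero] at h3
  refine squeeze_zero' (Eventually.of_forall fun k => (y k).l.T.pb_nonneg _) ?_ h3
  filter_upwards [hP, hx 1 one_pos, hy 1 one_pos] with k hPk b3 b4
  have h4 := pb_push ((x k).l.am (y k).l).p2 (fun ω => ¬ P' k ((y k).l.p.π ω) ((y k).g ω))
  have h5 := pb_push ((x k).l.am (y k).l).p1 (fun ω => ¬ P k ((x k).l.p.π ω) ((x k).g ω))
  show (y k).l.T.pb _ ≤ ((x k).jj (y k)).l.T.pb _ + (x k).l.T.pb _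
  have e4 : (y k).l.T.pb (fun ω => ¬ P' k ((y k).l.p.π ω) ((y k).g ω)) =
      ((x k).l.am (y k).l).sp.pb (fun w => ¬ P' k ((y k).l.p.π (((x k).l.am (y k).l).p2.π w))
        ((y k).g (((x k).l.am (y k).l).p2.π w))) := h4.symm
  have e5 : (x k).l.T.pb (fun ω => ¬ P k ((x k).l.p.π ω) ((x k).g ω)) =
      ((x k).l.am (y k).l).sp.pb (fun w => ¬ P k ((x k).l.p.π (((x k).l.am (y k).l).p1.π w))
        ((x k).g (((x k).l.am (y k).l).p1.π w))) := h5.symm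
  refine e4.trans_le ((FSp.pb_mono _ (E' := fun w : ((x k).l.am (y k).l).sp.Ω =>
    (¬ ∀ v, qf (((x k).jj (y k)).g' w) v ≤ 2 ^ (e * (S.F k).n) * qf (((x k).jj (y k)).g w) v) ∨
    ¬ P k ((x k).l.p.π (((x k).l.am (y k).l).p1.π w)) ((x k).g (((x k).l.am (y k).l).p1.π w))) ?_).trans
      ((pb_or _ _ _).trans (add_le_add le_rfl e5.symm.le)))
  intro w hw h6
  by_contra hc
  rw [not_or, not_not, not_not] at hc
  apply h6
  have s1 := ((x k).l.am (y k).l).p1.supp w hw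
  have s2 := ((x k).l.am (y k).l).p2.supp w hw
  have s3 := (x k).jj_supp (y k) w hw
  have h7 := hPk ((x k).l.p.π (((x k).l.am (y k).l).p1.π w)) _ _ (b3.2.1 _ s1).1.pdM (b4.2.1 _ s2).1.pdM hc.1 hc.2
  rw [s3] at h7
  exact h7

/-- dominated forms: coordinate directions -/
theorem Ue.dom {Q : S.VV M} {x y : ∀ k, FD (S.F k) (Mon M D)} {θ : ℝ} (hu : Ue Q x θ) (hx : (gaq Q D).Adf A x)
    (hy : (gaq Q D).Adf B y) (hxy : DomJ x y) : Ue Q y θ := by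
  intro ε hε
  refine dom_tr hx hy hxy (fun k ω A => ∀ z, Real.logb 2 (1 + sgl z ⬝ᵥ (Jq (S.dl 1 k) A (Q.v k ω) *ᵥ sgl z)) /
    (2 * (S.F k).n) ≤ θ + ε / 2) (fun k ω A => ∀ z, Real.logb 2 (1 + sgl z ⬝ᵥ (Jq (S.dl 1 k) A (Q.v k ω) *ᵥ sgl z)) /
    (2 * (S.F k).n) ≤ θ + ε) ε hε (Eventually.of_forall fun k ω A B hA hB h h1 z => ?_) (hu (ε / 2) (by linarith))
  have hn := (S.F k).pos
  have h2 : sgl z ⬝ᵥ (Jq (S.dl 1 k) B (Q.v k ω) *ᵥ sgl z) ≤
      2 ^ (ε * (S.F k).n) * (sgl z ⬝ᵥ (Jq (S.dl 1 k) A (Q.v k ω) *ᵥ sgl z)) := by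
    rw [Jq_qf, Jq_qf, Finset.mul_sum]
    exact Finset.sum_le_sum fun j _ => h _
  have h3 := Jq_nonneg (S.dl 1 k) hA.nonneg (Q.v k ω) (sgl z)
  have h4 := Jq_nonneg (S.dl 1 k) hB.nonneg (Q.v k ω) (sgl z)
  have h5 : (1 : ℝ) ≤ 2 ^ (ε * (S.F k).n) := Real.one_le_rpow (by norm_num) (by positivity)
  have h6 : 1 + sgl z ⬝ᵥ (Jq (S.dl 1 k) B (Q.v k ω) *ᵥ sgl z) ≤
      2 ^ (ε * (S.F k).n) * (1 + sgl z ⬝ᵥ (Jq (S.dl 1 k) A (Q.v k ω) *ᵥ sgl z)) := by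
    rw [mul_add, mul_one]
    linarith
  have h7 := Real.logb_le_logb_of_le (b := 2) (by norm_num) (by linarith) h6
  rw [Real.logb_mul (by positivity) (by linarith), Real.logb_rpow (by norm_num) (by norm_num)] at h7
  have h8 := h1 z
  rw [div_le_iff₀ (by positivity)] at h8 ⊢
  linarith

/-- dominated forms: volumes -/
theorem Ub.dom {Q : S.VV M} {x y : ∀ k, FD (S.F k) (Mon M D)} {θ : ℝ} (hu : Ub Q x θ) (hx : (gaq Q D).Adf A x)
    (hy : (gaq Q D).Adf B y) (hxy : DomJ x y) : Ub Q y θ := by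
  intro ε hε
  have hη : 0 < ε / (M + 1) := by positivity
  refine dom_tr hx hy hxy (fun k ω A => gx Q k ω A ≤ θ + ε / 2) (fun k ω A => gx Q k ω A ≤ θ + ε) (ε / (M + 1)) hη
    (Eventually.of_forall fun k ω A B hA hB h h1 => ?_) (hu (ε / 2) (by linarith))
  have hn := (S.F k).pos
  have h2 := GQ_dom (S.dl 1 k) A B hA.1 hA.nonneg hB.1 hB.nonneg (Q.v k ω) (2 ^ (ε / (M + 1) * (S.F k).n))
    (Real.one_le_rpow (by norm_num) (by positivity)) h
  have h3 := one_le_GQ (S.dl 1 k) hA.1 hA.nonneg (Q.v k ω)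
  have h4 := one_le_GQ (S.dl 1 k) hB.1 hB.nonneg (Q.v k ω)
  have h7 := Real.logb_le_logb_of_le (b := 2) (by norm_num) (by linarith) h2
  rw [Real.logb_mul (by positivity) (by linarith), Real.logb_pow, Real.logb_rpow (by norm_num) (by norm_num)] at h7
  unfold gx at h1 ⊢
  rw [div_le_iff₀ (by positivity)] at h1 ⊢
  have h8 : (M : ℝ) * (ε / (M + 1) * (S.F k).n) ≤ ε * (S.F k).n := by
    have h9 : (M : ℝ) * (ε / (M + 1)) ≤ ε := by
      rw [mul_div_assoc', div_le_iff₀ (by positivity)]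
      nlinarith
    have := mul_le_mul_of_nonneg_right h9 hn.le
    linarith
  linarith

section part
variable {σ : Fin m → Fin M} {hσ : Function.Injective σ} {Q : S.VV M} {P : S.VV m}
  (hP : ∀ k ω a, P.v k ω a = Q.v k ω (σ a)) {x : ∀ k, FD (S.F k) (Mon M D)}

include hP

theorem Ue.prt {θ : ℝ} (hu : Ue Q x θ) (hx : (gaq Q D).Adf A x) : Ue P (prt σ hσ x) θ := by
  intro ε hε
  refine typ_mono (S := (lb x).sp) (hu ε hε) ?_
  filter_upwards [hx 1 one_pos] with k hk ω hω h z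
  have hn := (S.F k).pos
  have hA := (hk.2.1 ω hω).1.pdM
  have h1 := prm_Jq hσ hA (S.dl 1 k) (Q.v k ((x k).l.p.π ω)) (sgl (σ z))
  have h2 : (sgl (σ z) : Fin M → ℝ) ∘ σ = sgl z := by
    funext a
    unfold sgl
    by_cases h : a = z
    · rw [h, Function.comp_apply, Pi.single_eq_same, Pi.single_eq_same]
    · rw [Function.comp_apply, Pi.single_eq_of_ne h, Pi.single_eq_of_ne fun h3 => h (hσ h3)]
  rw [h2] at h1
  have e1 : Q.v k ((x k).l.p.π ω) ∘ σ = P.v k ((x k).l.p.π ω) := funext fun a => (hP k _ a).symm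
  rw [e1] at h1
  have h3 := Jq_nonneg (S.dl 1 k) (prm_pd hσ hA).nonneg (P.v k ((x k).l.p.π ω)) (sgl z)
  refine le_trans ?_ (h (σ z))
  refine div_le_div_of_nonneg_right (Real.logb_le_logb_of_le (by norm_num) ?_ ?_) (by positivity)
  · show 0 < 1 + sgl z ⬝ᵥ (Jq (S.dl 1 k) (prm σ hσ ((x k).g ω)) (P.v k ((x k).l.p.π ω)) *ᵥ sgl z)
    linarith
  · show 1 + sgl z ⬝ᵥ (Jq (S.dl 1 k) (prm σ hσ ((x k).g ω)) (P.v k ((x k).l.p.π ω)) *ᵥ sgl z) ≤
      1 + sgl (σ z) ⬝ᵥ (Jq (S.dl 1 k) ((x k).g ω) (Q.v k ((x k).l.p.π ω)) *ᵥ sgl (σ z))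
    linarith

theorem Ub.prt {θ : ℝ} (hu : Ub Q x θ) (hx : (gaq Q D).Adf A x) : Ub P (prt σ hσ x) θ := by
  intro ε hε
  refine typ_mono (S := (lb x).sp) (hu ε hε) ?_
  filter_upwards [hx 1 one_pos] with k hk ω hω h
  have hn := (S.F k).pos
  have hA := (hk.2.1 ω hω).1.pdM
  have h1 := GQ_prm hσ hA (S.dl 1 k) (Q.v k ((x k).l.p.π ω))
  have e1 : Q.v k ((x k).l.p.π ω) ∘ σ = P.v k ((x k).l.p.π ω) := funext fun a => (hP k _ a).symm
  rw [e1] at h1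
  have h3 := one_le_GQ (S.dl 1 k) (prm_pd hσ hA).1 (prm_pd hσ hA).nonneg (P.v k ((x k).l.p.π ω))
  refine le_trans ?_ h
  unfold gx
  exact div_le_div_of_nonneg_right (Real.logb_le_logb_of_le (by norm_num) (lt_of_lt_of_le one_pos h3) h1)
    (by positivity)

/-- EXPONENTS of the optimal forms of a part of the coordinates, from one optimal form -/
theorem Ue.part {C : LC S} {θ : ℝ} (hu : Ue Q x θ) (hx : (gaq Q D).OptfK C A x) (hσ : Function.Injective σ)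
    {y : ∀ k, FD (S.F k) (Mon m D)} (hy : (gaq P D).AdfK C A y) : Ue P y θ := by
  have h1 : (gaq Q D).AdfK C A (exd σ hσ y) := ⟨exd_adf hP hy.1, hy.2⟩
  have h2 : DomJ x (exd σ hσ y) := fun e he => Gau.OptfK.dom (gaq Q D) hx h1 e he
  exact (Ue.prt hP hu hx.1.1).dom (prt_adf hP hx.1.1) hy.1 (domJ_prt hx.1.1 h2)

theorem Ub.part {C : LC S} {θ : ℝ} (hu : Ub Q x θ) (hx : (gaq Q D).OptfK C A x) (hσ : Function.Injective σ)
    {y : ∀ k, FD (S.F k) (Mon m D)} (hy : (gaq P D).AdfK C A y) : Ub P y θ := by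
  have h1 : (gaq Q D).AdfK C A (exd σ hσ y) := ⟨exd_adf hP hy.1, hy.2⟩
  have h2 : DomJ x (exd σ hσ y) := fun e he => Gau.OptfK.dom (gaq Q D) hx h1 e he
  exact (Ub.prt hP hu hx.1.1).dom (prt_adf hP hx.1.1) hy.1 (domJ_prt hx.1.1 h2)

end part

end

end Pool.Agent.Helper25.DX
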