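import Pool.Agent.Helper25.DX.Fin

/-! ROW [TGR] of Helper94/SEL/St: total exponents less than one bound the top exponent. Degrees of the hulls of rigid
pairs. -/

set_option autoImplicit false

namespace Pool.Agent.Helper25.DX

open Finset Filter Topology Matrix Pool.Agent.Helper69.RK Pool.Agent.Helper31.EC Pool.Agent.Helper31.EC.Sp
open Pool.Agent.Helper40.EL Pool.Agent.Helper89.LX Pool.Agent.Helper3.LF Pool.Agent.Helper84.MT
open Pool.Agent.Helper36.AM (STu MCl)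
open Pool.Agent.Helper48.ROK (AttS)
open Pool.Agent.Helper29.MX Pool.Agent.Helper94.SEL

noncomputable section

variable {S : Sp} {M D : ℕ}

/-- the total exponents of a rigid pair on the events -/
theorem BK_tot {C : MCl (M + 1)} {v g r e0 : ℕ} {b0 : ℝ} {s : MSys S (M + 1) (lin g) (Fin r)} {R : Rsl S}
    (hb : BK C v g r e0 b0 S s R) {c : ℝ} (h0 : 0 ≤ c) (hc : c < b0) (T : Sp) (q : Pj T S)
    (A : ∀ k, (T.F k).Ω → Prop) (hA : 0 < ul (T.pr A)) :
    Pool.Agent.Helper94.SEL.tot (s.im q A hA) R c = Pool.Agent.Helper94.SEL.tot s R c := by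
  rw [Pool.Agent.Helper89.SPX.tot_num, Pool.Agent.Helper89.SPX.tot_num]
  exact hb.rig T q A hA c h0 hc (M + 1) le_rfl

/-- **ROW [TGR]** -/
theorem tgr (M : ℕ) : TGR M := by
  intro A C v _ m g r e0 b0 S s R hb c e h0 hc _ _ hte D x hx
  have h1 := (ue_tot hb.cl.2.1 hx.1 (θ := Pool.Agent.Helper94.SEL.tot s R c) fun T q B hB =>
    (BK_tot hb h0 hc T q B hB).le).2.2
  exact h1.mono (by linarith)

/-- exponents of the optimal forms of a rigid pair at a window with a bound of the top exponent -/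
theorem BK_hyp {C : MCl (M + 1)} {v g r e0 : ℕ} {b0 : ℝ} {s : MSys S (M + 1) (lin g) (Fin r)} {R : Rsl S}
    (hb : BK C v g r e0 b0 S s R) {c : ℝ} (h0 : 0 ≤ c) (hc : c < b0) {e : ℝ} (hT : TopG s R c e) :
    Hyp s R c (1 - e) (Pool.Agent.Helper94.SEL.tot s R c) := fun _ _ hx => ⟨grb_ue hx.1.1 (hT _ _ hx),
  (ue_tot hb.cl.2.1 hx.1 fun T q B hB => (BK_tot hb h0 hc T q B hB).le).1⟩

/-- **DEGREES OF THE HULLS OF RIGID PAIRS**: one degree, which depends on `M`, the dimensions `e0` and `La` only, attains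
the volumes of all prefixes at all windows `c > 0` with `tot <= La c` and a bound of the top exponent -/
theorem BK_att (hst : ∀ m, m < M + 1 → STu m) (e0 : ℕ) (La : ℝ) : ∃ D₁ : ℕ, 1 ≤ D₁ ∧ ∀ D₀, D₁ ≤ D₀ →
    ∀ (C : MCl (M + 1)) (v g r : ℕ) (b0 : ℝ) (S : Sp) (s : MSys S (M + 1) (lin g) (Fin r)) (R : Rsl S),
      BK C v g r e0 b0 S s R → ∀ c e : ℝ, 0 < c → c < b0 → c < 1 → 0 < e → TopG s R c e →
        Pool.Agent.Helper94.SEL.tot s R c ≤ La * c → AttS D₀ c s R := by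
  obtain ⟨D₁, h1, h2⟩ := degx hst (g := max (max e0 ⌈La⌉₊) 1) (le_max_right _ _)
  refine ⟨D₁, h1, fun D₀ hD C v g r b0 S s R hb c e h0 hc hc1 he hT ht => ?_⟩
  refine h2 D₀ hD (Fin r) (lin g) S s R hb.cl.2.1 (fun i => (hb.dim i).trans ((le_max_left _ _).trans
    (le_max_left _ _))) c (1 - e) (Pool.Agent.Helper94.SEL.tot s R c) h0 hc1 (by linarith) (ht.trans_lt ?_)
    (BK_hyp hb h0.le hc hT)
  rw [mul_comm]
  apply mul_lt_mul_of_pos_left _ h0
  have h3 : La ≤ (max (max e0 ⌈La⌉₊) 1 : ℕ) := (Nat.le_ceil La).trans (by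
    exact_mod_cast (le_max_right e0 ⌈La⌉₊).trans (le_max_left _ _))
  have h4 : (0 : ℝ) ≤ M := Nat.cast_nonneg M
  push_cast at h3 ⊢
  linarith

end

end Pool.Agent.Helper25.DX
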