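import Pool.Agent.Helper25.DX.Ulw
import Pool.Agent.Helper26.BXD.Der
import Pool.Agent.Helper48.ROK.Mx
import Pool.Agent.Helper89.SPX.Spd

/-! THE TOP EXPONENT: `Ue Q x th` is `GrB Q x (1 - th)` (Helper84/MT/Row); it follows from bounds of the total exponents on
all events of all extensions. -/

set_option autoImplicit false

namespace Pool.Agent.Helper25.DX

open Finset Filter Topology Matrix Pool.Agent.Helper69.RK Pool.Agent.Helper31.EC Pool.Agent.Helper31.EC.Sp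
open Pool.Agent.Helper40.EL Pool.Agent.Helper89.LX Pool.Agent.Helper3.LF Pool.Agent.Helper84.MT
open Pool.Agent.Helper14.MC
open Pool.Agent.Helper4.VZ (sgl sgl_Jq ee je je_one_le je_pow)
open Pool.Agent.Helper89.RAK (KC Lit)
open Pool.Agent.Helper89.RAD (cnA dp)
open Pool.Agent.Helper48.ROK (nrm nrm_lit nrm_fc kns_im adfK_res optfK_res volC_res)
open Pool.Agent.Helper87.NSL (cndR KnS)
open Pool.Agent.Helper29.MX

noncomputable section

variable {S : Sp} {M D : ℕ} {κ : Type} {E : ℕ → ℕ} {ι : Type} {Q : S.VV M} {x : ∀ k, FD (S.F k) (Mon M D)}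

theorem sgl_dot (z : Fin M) : sgl z ⬝ᵥ (sgl z : Fin M → ℝ) = 1 := by
  rw [show (sgl z : Fin M → ℝ) = Pi.single z 1 from rfl, single_dotProduct, one_mul, Pi.single_eq_same]

/-- the quotient of the scales -/
theorem dl_div (S : Sp) (u : ℝ) (k : ℕ) : (S.dl u k / S.dl 1 k) ^ 2 = 2 ^ (2 * (1 - u) * (S.F k).n) := by
  unfold Sp.dl
  rw [← Real.rpow_sub (by norm_num), ← Real.rpow_natCast, ← Real.rpow_mul (by norm_num)]
  congr 1
  push_cast
  ring

/-- bounds in the coordinate directions bound the form of the gradients -/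
theorem ue_grb {A : κ → Part S} (hx : (gaq Q D).Adf A x) {θ : ℝ} (hu : Ue Q x θ) : GrB Q x (1 - θ) := by
  rcases Nat.eq_zero_or_pos M with hM | hM
  · subst hM
    refine ⟨fun _ => 1, S.Sub_const zero_le_one, Typ.mono (S := Lab.sp (fun k => (x k).l)) Typ_true
      (Eventually.of_forall fun k ω _ _ e => ?_)⟩
    have h1 : e = 0 := Subsingleton.elim _ _
    rw [h1, zero_dotProduct, zero_dotProduct, mul_zero]
  suffices hs : ∀ η : ℝ, 0 < η → ∀ᶠ k in UF, (x k).l.T.pb (fun ω => ¬ ∀ e : Fin M → ℝ,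
      e ⬝ᵥ ((1 + Jq (S.dl 1 k) ((x k).g ω) (Q.v k ((x k).l.p.π ω))) *ᵥ e) ≤
        2 ^ (η * (S.F k).n) * (S.dl (1 - θ) k / S.dl 1 k) ^ 2 * (e ⬝ᵥ e)) ≤ η by
    obtain ⟨K, hK, hT⟩ := Pool.Agent.Helper89.LX.typ_diag (S := Lab.sp (fun k => (x k).l))
      (fun k (ω : (x k).l.T.Ω) K =>
        ∀ e : Fin M → ℝ, e ⬝ᵥ ((1 + Jq (S.dl 1 k) ((x k).g ω) (Q.v k ((x k).l.p.π ω))) *ᵥ e) ≤
          K * (S.dl (1 - θ) k / S.dl 1 k) ^ 2 * (e ⬝ᵥ e)) (fun η hη => by
        filter_upwards [hs η hη] with k hk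
        have h2 : ((Lab.sp (fun k => (x k).l)).F k).n = (S.F k).n := (x k).l.hn
        rw [h2]
        exact hk)
    exact ⟨K, (sp_Sub _).mp hK, hT⟩
  intro η hη
  have h1 : Sp.Typ (S := (lb x).sp) (fun k (ω : (x k).l.T.Ω) => ∀ z, ee Q x (fun _ _ => sgl z) k ω ≤ θ + η / 4) :=
    hu _ (by linarith)
  have h1' : Tendsto (fun k => (x k).l.T.pb (fun ω => ¬ ∀ z, ee Q x (fun _ _ => sgl z) k ω ≤ θ + η / 4)) UF (𝓝 0) := h1
  have hs : S.Sub (fun _ => (M : ℝ) + 1) := S.Sub_const (by positivity)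
  · filter_upwards [h1'.eventually (gt_mem_nhds hη), hx 1 one_pos, je_one_le hx,
      hs.eventually_le (show (0 : ℝ) < η / 2 by linarith)] with k a b c d
    refine ((x k).l.T.pb_mono ?_).trans a.le
    intro ω hω h2 h3
    apply h2
    intro e
    have hn := (S.F k).pos
    have hA := (b.2.1 ω hω).1.pdM
    have h4 := Pool.Agent.Helper26.BXD.qf_le_trace (Jq_symm (S.dl 1 k) hA.1 (Q.v k ((x k).l.p.π ω)))
      (fun f => Jq_nonneg (S.dl 1 k) hA.nonneg (Q.v k ((x k).l.p.π ω)) f) e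
    have h5 : (Jq (S.dl 1 k) ((x k).g ω) (Q.v k ((x k).l.p.π ω))).trace ≤ ∑ _z : Fin M,
        (2 : ℝ) ^ (2 * (θ + η / 4) * (S.F k).n) := by
      refine Finset.sum_le_sum fun z _ => ?_
      show Jq (S.dl 1 k) ((x k).g ω) (Q.v k ((x k).l.p.π ω)) z z ≤ _
      rw [← sgl_Jq z (Jq (S.dl 1 k) ((x k).g ω) (Q.v k ((x k).l.p.π ω)))]
      have h6 := je_pow (Q := Q) (x := x) (fun _ _ => sgl z) k ω (c ω hω _)
      have h7 : (2 : ℝ) ^ (2 * ee Q x (fun _ _ => sgl z) k ω * (S.F k).n) ≤ 2 ^ (2 * (θ + η / 4) * (S.F k).n) := by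
        apply Real.rpow_le_rpow_of_exponent_le (by norm_num)
        have := h3 z
        nlinarith
      rw [h6] at h7
      unfold je at h7
      linarith
    rw [Finset.sum_const, Finset.card_univ, Fintype.card_fin, nsmul_eq_mul] at h5
    have h8 : (0 : ℝ) ≤ e ⬝ᵥ e := dot_self_nonneg e
    have h9 : e ⬝ᵥ ((1 + Jq (S.dl 1 k) ((x k).g ω) (Q.v k ((x k).l.p.π ω))) *ᵥ e) ≤
        (1 + M * 2 ^ (2 * (θ + η / 4) * (S.F k).n)) * (e ⬝ᵥ e) := by
      rw [Matrix.add_mulVec, Matrix.one_mulVec, dotProduct_add]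
      have := mul_le_mul_of_nonneg_right h5 h8
      linarith
    refine h9.trans (mul_le_mul_of_nonneg_right ?_ h8)
    have h11 : (1 : ℝ) ≤ 2 ^ (2 * (θ + η / 4) * (S.F k).n) := by
      have h6 := c ω hω (fun _ _ => sgl ⟨0, hM⟩)
      have h7 := je_pow (Q := Q) (x := x) (fun _ _ => sgl ⟨0, hM⟩) k ω h6
      rw [← h7] at h6
      refine h6.trans (Real.rpow_le_rpow_of_exponent_le (by norm_num) ?_)
      have := h3 ⟨0, hM⟩
      nlinarith
    have h10 : (1 : ℝ) + M * 2 ^ (2 * (θ + η / 4) * (S.F k).n) ≤ (M + 1) * 2 ^ (2 * (θ + η / 4) * (S.F k).n) := by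
      linarith
    refine h10.trans ?_
    rw [dl_div]
    have d0 : (M : ℝ) + 1 + 2 ≤ 2 ^ (η / 2 * (S.F k).n) := d
    have d' : (M : ℝ) + 1 ≤ 2 ^ (η / 2 * (S.F k).n) := by linarith
    refine (mul_le_mul_of_nonneg_right d' (show (0 : ℝ) ≤ 2 ^ (2 * (θ + η / 4) * (S.F k).n) by
      positivity)).trans (le_of_eq ?_)
    rw [← Real.rpow_add (by norm_num), ← Real.rpow_add (by norm_num)]
    congr 1
    ring

/-- bounds of the form of the gradients in the coordinate directions -/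
theorem grb_ue {A : κ → Part S} (hx : (gaq Q D).Adf A x) {u : ℝ} (hu : GrB Q x u) : Ue Q x (1 - u) := by
  obtain ⟨K, hK, hT⟩ := hu
  intro ε hε
  refine typ_mono (S := (lb x).sp) hT ?_
  filter_upwards [je_one_le hx, hK.eventually_le (show (0 : ℝ) < 2 * ε by linarith), hK.1] with k c d K0 ω hω h z
  have hn := (S.F k).pos
  have h1 := h (sgl z)
  have h2 := je_pow (Q := Q) (x := x) (fun _ _ => sgl z) k ω (c ω hω _)
  have h3 : je Q x (fun _ _ => sgl z) k ω ≤ K k * (S.dl u k / S.dl 1 k) ^ 2 := by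
    rw [Matrix.add_mulVec, Matrix.one_mulVec, dotProduct_add, sgl_dot, mul_one] at h1
    exact h1
  rw [dl_div] at h3
  have h4 : je Q x (fun _ _ => sgl z) k ω ≤ 2 ^ (2 * (1 - u + ε) * (S.F k).n) := by
    refine h3.trans ?_
    refine (mul_le_mul_of_nonneg_right (show K k ≤ 2 ^ (2 * ε * (S.F k).n) by linarith)
      (show (0 : ℝ) ≤ 2 ^ (2 * (1 - u) * (S.F k).n) by positivity)).trans (le_of_eq ?_)
    rw [← Real.rpow_add (by norm_num)]
    congr 1
    ring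
  rw [← h2] at h4
  have h5 := (Real.rpow_le_rpow_left_iff (by norm_num : (1 : ℝ) < 2)).mp h4
  by_contra h6
  have h7 : 1 - u + ε < ee Q x (fun _ _ => sgl z) k ω := not_le.1 h6
  nlinarith

/-- the exponents of the volume of K-admissible forms, from the total exponents on all events of all extensions -/
theorem ub_tot [Finite ι] {s : MSys S M E ι} {R : Rsl S} (hP : Pt s R) {c θ : ℝ} {x : ∀ k, FD (S.F k) (Mon M D)}
    (hx : KAd s R D c x) (hL : ∀ (T : Sp) (q : Pj T S) (A : ∀ k, (T.F k).Ω → Prop) (hA : 0 < ul (T.pr A)),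
      (M : ℝ) - θ ≤ volKO (s.im q A hA) R c) : Ub s.Q x θ := by
  have h0 : (gaq s.Q D).AdfK (KC (nrm R s.Q)) (cnA s (dp (nrm R s.Q)) c) x := by
    rw [adfK_res (nrm_fc hP)]
    unfold KAd at hx
    rw [cndR_eq] at hx
    exact hx
  refine ub_low (nrm_lit R s.Q) h0 fun T p A hA z hz => ?_
  have h1 : ∀ᶠ k in UF, fc (F := (Sp.im p A).F k) (nrm R s.Q k) = fc (F := (Sp.im p A).F k) (R k) :=
    nrm_fc (S := Sp.im p A) (R := R) (Q := (s.im p A hA).Q) (kns_im hP p A)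
  have h2 : KAd (s.im p A hA) R D c z := by
    unfold KAd
    rw [cndR_eq]
    refine (adfK_res (S := Sp.im p A) (s := s.im p A hA) h1).mp ?_
    rw [Pool.Agent.Helper89.SPX.cnA_im]
    exact hz
  exact (hL T p A hA).trans (volKO_le_of h2)

/-- the total exponent bounds the top exponent -/
theorem ue_tot [Finite ι] {s : MSys S M E ι} {R : Rsl S} (hP : Pt s R) {c θ : ℝ} {x : ∀ k, FD (S.F k) (Mon M D)}
    (hx : KAd s R D c x) (hL : ∀ (T : Sp) (q : Pj T S) (A : ∀ k, (T.F k).Ω → Prop) (hA : 0 < ul (T.pr A)),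
      Pool.Agent.Helper94.SEL.tot (s.im q A hA) R c ≤ θ) : Ub s.Q x θ ∧ Ue s.Q x θ ∧ GrB s.Q x (1 - θ) := by
  have h1 : Ub s.Q x θ := ub_tot hP hx fun T q A hA => by
    have := hL T q A hA
    unfold Pool.Agent.Helper94.SEL.tot at this
    linarith
  exact ⟨h1, h1.ue hx.1, ue_grb hx.1 (h1.ue hx.1)⟩

end

end Pool.Agent.Helper25.DX
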