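import Pool.Agent.Helper25.DX.Typ
import Pool.Agent.Helper52.SL.Ext
import Pool.Agent.Helper26.MT.Zo
import Pool.Agent.Helper13.AM.Zq

/-! TRUNCATION OF FORMS WITH SMALL EXPONENTS: a form which dominates its derivatives and whose exponent is less than `t` is
a form of the point truncated at the level `t`, with the same exponents (divided by `t`). Arbitrary conditions, given by
partitions. -/

set_option autoImplicit false

namespace Pool.Agent.Helper25.DX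

open Finset Filter Topology Matrix Pool.Agent.Helper69.RK Pool.Agent.Helper31.EC Pool.Agent.Helper31.EC.Sp
open Pool.Agent.Helper40.EL Pool.Agent.Helper89.LX Pool.Agent.Helper3.LF Pool.Agent.Helper84.MT
open Pool.Agent.Helper95.LF Pool.Agent.Helper3.PR
open Pool.Agent.Helper14.MC
open Pool.Agent.Helper4.VZ (sgl Dmv)
open Pool.Agent.Helper89.RAK (Dmz DomJ)
open Pool.Agent.Helper52.SL (untF tnF untL tnL nul_trn cellv_chg untF_leak tnF_leak)

noncomputable section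

variable {S : Sp} {M D : ℕ} {κ : Type} {Q : S.VV M} {x : ∀ k, FD (S.F k) (Mon M D)}

/-- conditions given by partitions -/
def cs (W : κ → ∀ k, Setoid (S.F k).Ω) (i : κ) : Part S := fun k => fc (W i k)

/-- the same conditions in the truncated space -/
def ct (t : ℝ) (h0 : 0 < t) (W : κ → ∀ k, Setoid (S.F k).Ω) (i : κ) : Part (S.chg S.tr t h0) :=
  fun k => (fc (W i k : Setoid ((S.chg S.tr t h0).F k).Ω) : FL ((S.chg S.tr t h0).F k))

theorem dm_tnL {t : ℝ} {h0 : 0 < t} {W : κ → ∀ k, Setoid (S.F k).Ω} {l : Lab S} (h : l.DMf (cs W)) :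
    (tnL t h0 l).DMf (ct t h0 W) := fun i => nul_trn.mpr (h i)

theorem dm_untL {t : ℝ} {h0 : 0 < t} {W : κ → ∀ k, Setoid (S.F k).Ω} {l : Lab (S.chg S.tr t h0)}
    (h : l.DMf (ct t h0 W)) : (untL l).DMf (cs W) := fun i => nul_trn.mp (h i)

/-- the form in the truncated space -/
def tnx (t : ℝ) (h0 : 0 < t) (Q : S.VV M) (x : ∀ k, FD (S.F k) (Mon M D)) :
    ∀ k, FD ((S.chg S.tr t h0).F k) (Mon M D) :=
  cutFD (gaq (Q.chg S.tr t h0) D) (tnL t h0 (lb x)) (fun k (ω : (x k).l.T.Ω) => (x k).g ω)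
    fun k ω ω' a b c d => ((x k).meas ω ω' a b c d).1

theorem tnx_l (t : ℝ) (h0 : 0 < t) (Q : S.VV M) (x : ∀ k, FD (S.F k) (Mon M D)) (k : ℕ) :
    (tnx t h0 Q x k).l = tnF t h0 (x k).l := rfl

theorem dl_le_inv {θ t η : ℝ} (h : θ + η ≤ t) (k : ℕ) : S.dl t k ≤ ((2 : ℝ) ^ ((θ + η) * (S.F k).n))⁻¹ := by
  rw [← Real.rpow_neg (by norm_num)]
  unfold Sp.dl
  apply Real.rpow_le_rpow_of_exponent_le (by norm_num)
  have := mul_le_mul_of_nonneg_right h (S.F k).pos.le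
  linarith

/-- the constant of the comparison of two scales -/
def cc (M : ℕ) : ℝ := Real.exp (2 * M)

theorem cc_one (M : ℕ) : 1 ≤ cc M := Real.one_le_exp (by positivity)

section box

variable {A : Matrix (Mon M D) (Mon M D) ℝ} {θ t η : ℝ}

/-- two scales -/
theorem two_box (h1 : t ≤ 1) (hη : θ + η ≤ t) (k : ℕ) :
    Real.exp (2 * 2 ^ ((θ + η) * (S.F k).n) * (0 + |S.dl t k - S.dl 1 k|) * M) ≤ cc M := by
  have hL : (0 : ℝ) < 2 ^ ((θ + η) * (S.F k).n) := by positivity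
  apply Real.exp_le_exp.mpr
  have h2 := S.dl_anti h1 k
  have h3 := S.dl_pos 1 k
  have h4 : |S.dl t k - S.dl 1 k| ≤ ((2 : ℝ) ^ ((θ + η) * (S.F k).n))⁻¹ := by
    rw [abs_of_nonneg (by linarith)]
    have := dl_le_inv (S := S) hη k
    linarith
  have h5 := mul_le_mul_of_nonneg_left h4 hL.le
  rw [mul_inv_cancel₀ hL.ne'] at h5
  have h6 : (0 : ℝ) ≤ M := Nat.cast_nonneg M
  have h7 : (2 : ℝ) ^ ((θ + η) * (S.F k).n) * |S.dl t k - S.dl 1 k| * M ≤ 1 * M := mul_le_mul_of_nonneg_right h5 h6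
  linarith

/-- sizes on the two scales -/
theorem phi_two {k : ℕ} (hA : PdM A) (hd : ∀ z, Dmv A (sgl z) (2 ^ ((θ + η) * (S.F k).n))) (h1 : t ≤ 1)
    (hη : θ + η ≤ t) (p : Fin M → ℝ) : phi (S.dl t k) A p ≤ cc M * phi (S.dl 1 k) A p := by
  have h2 := phi_box hA.1 (fun y => hA.nonneg y) (by positivity) hd p p (t := 0)
    (fun i => by rw [sub_self, abs_zero]) (S.dl 1 k) (S.dl t k)
  exact h2.trans (mul_le_mul_of_nonneg_right (two_box h1 hη k) (phi_nonneg _ (fun y => hA.nonneg y) _))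

/-- determinants on the two scales -/
theorem GQ_two {k : ℕ} (hA : PdM A) (hd : ∀ z, Dmv A (sgl z) (2 ^ ((θ + η) * (S.F k).n))) (h1 : t ≤ 1)
    (hη : θ + η ≤ t) (p : Fin M → ℝ) : GQ (S.dl 1 k) A p ≤ cc M ^ M * GQ (S.dl t k) A p ∧
      GQ (S.dl t k) A p ≤ cc M ^ M * GQ (S.dl 1 k) A p := by
  have hnn : ∀ y, 0 ≤ y ⬝ᵥ (A *ᵥ y) := fun y => hA.nonneg y
  have hJ : ∀ (r : ℝ) (f : Fin M → ℝ), 0 ≤ f ⬝ᵥ (Jq r A p *ᵥ f) := fun r f => by
    rw [Jq_qf]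
    exact Finset.sum_nonneg fun j _ => hnn _
  constructor
  · refine GQ_le_of (S.dl t k) (S.dl 1 k) A A hA.1 hnn hA.1 hnn p p (cc M) (cc_one M) fun e => ?_
    have h2 := Jq_box hA.1 hnn (L := 2 ^ ((θ + η) * (S.F k).n)) (by positivity) hd p p e (t := 0)
      (fun i => by rw [sub_self, abs_zero]) (S.dl t k) (S.dl 1 k)
    refine h2.trans (mul_le_mul_of_nonneg_right ?_ (hJ _ _))
    rw [abs_sub_comm]
    exact two_box h1 hη k
  · refine GQ_le_of (S.dl 1 k) (S.dl t k) A A hA.1 hnn hA.1 hnn p p (cc M) (cc_one M) fun e => ?_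
    have h2 := Jq_box hA.1 hnn (L := 2 ^ ((θ + η) * (S.F k).n)) (by positivity) hd p p e (t := 0)
      (fun i => by rw [sub_self, abs_zero]) (S.dl 1 k) (S.dl t k)
    exact h2.trans (mul_le_mul_of_nonneg_right (two_box h1 hη k) (hJ _ _))

/-- exponents on the two scales -/
theorem gx_two {k : ℕ} (hA : PdM A) (hd : ∀ z, Dmv A (sgl z) (2 ^ ((θ + η) * (S.F k).n))) (h0 : 0 < t) (h1 : t ≤ 1)
    (hη : θ + η ≤ t) (ω : (S.F k).Ω) :
    gx Q k ω A ≤ t * gx (Q.chg S.tr t h0) k ω A + M * M / (S.F k).n * Real.logb 2 (Real.exp 1) ∧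
    t * gx (Q.chg S.tr t h0) k ω A ≤ gx Q k ω A + M * M / (S.F k).n * Real.logb 2 (Real.exp 1) := by
  have hn := (S.F k).pos
  have hnn : ∀ y, 0 ≤ y ⬝ᵥ (A *ᵥ y) := fun y => hA.nonneg y
  obtain ⟨g1, g2⟩ := GQ_two hA hd h1 hη (Q.v k ω)
  have a1 : 1 ≤ GQ (S.dl 1 k) A (Q.v k ω) := one_le_GQ _ hA.1 hnn _
  have a2 : 1 ≤ GQ (S.dl t k) A (Q.v k ω) := one_le_GQ _ hA.1 hnn _
  have ec : Real.logb 2 (cc M ^ M) = 2 * M * M * Real.logb 2 (Real.exp 1) := by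
    have : cc M ^ M = Real.exp 1 ^ ((2 * M * M : ℕ) : ℝ) := by
      unfold cc
      rw [← Real.exp_nat_mul, ← Real.exp_mul, one_mul]
      congr 1
      push_cast
      ring
    rw [this, Real.logb_rpow_eq_mul_logb_of_pos (Real.exp_pos 1)]
    push_cast
    ring
  have hcp : 0 < cc M ^ M := pow_pos (zero_lt_one.trans_le (cc_one M)) M
  have e1 : t * gx (Q.chg S.tr t h0) k ω A = Real.logb 2 (GQ (S.dl t k) A (Q.v k ω)) / (2 * (S.F k).n) := by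
    unfold gx
    rw [chg_dl, mul_one]
    show t * (Real.logb 2 (GQ (S.dl t k) A (Q.v k ω)) / (2 * (t * (S.F k).n))) = _
    field_simp
  rw [e1]
  unfold gx
  have b1 := Real.logb_le_logb_of_le (b := 2) (by norm_num) (by linarith) g1
  have b2 := Real.logb_le_logb_of_le (b := 2) (by norm_num) (by linarith) g2
  rw [Real.logb_mul hcp.ne' (by linarith), ec] at b1 b2
  have e2 : ∀ a : ℝ, a / (2 * (S.F k).n) + M * M / (S.F k).n * Real.logb 2 (Real.exp 1) =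
      (2 * M * M * Real.logb 2 (Real.exp 1) + a) / (2 * (S.F k).n) := by
    intro a
    field_simp
    ring
  rw [e2, e2]
  exact ⟨div_le_div_of_nonneg_right b1 (by positivity), div_le_div_of_nonneg_right b2 (by positivity)⟩

end box

section main

variable {θ t : ℝ} {W : κ → ∀ k, Setoid (S.F k).Ω}

/-- THE FORM IN THE TRUNCATED SPACE is admissible -/
theorem tnx_ad_ue [Finite κ] (hx : (gaq Q D).Adf (cs W) x) (hd : ∀ z, Dmz Q z x) (hθ : θ < t) (h0 : 0 < t) (h1 : t ≤ 1)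
    (hu : Ue Q x θ) : (gaq (Q.chg S.tr t h0) D).Adf (ct t h0 W) (tnx t h0 Q x) ∧
      Tendsto (fun k => (x k).l.T.pb (fun ω => ¬ ((tnx t h0 Q x k).g ω = (x k).g ω ∧
        ∀ z, Dmv ((x k).g ω) (sgl z) (2 ^ ((θ + (t - θ)) * (S.F k).n))))) UF (𝓝 0) := by
  obtain ⟨K, hK, hφ⟩ := adf_sub hx
  have hdm := dmv_ue hx hd hu (t - θ) (by linarith)
  have hL : (S.chg S.tr t h0).Sub (fun k => cc M * K k) :=
    chg_sub S.tr t h0 ((S.Sub_const (zero_le_one.trans (cc_one M))).mul hK)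
  have hT0 : Tendsto (fun k => (x k).l.T.pb (fun ω =>
      ¬ ((∀ z, Dmv ((x k).g ω) (sgl z) (2 ^ ((θ + (t - θ)) * (S.F k).n))) ∧
        (gaq Q D).φ k ((x k).l.p.π ω) ((x k).g ω) ≤ K k))) UF (𝓝 0) := typ_and hdm hφ
  have hg : ∀ᶠ k in UF, ∀ ω, (tnL t h0 (lb x) k).T.μ ω ≠ 0 →
      ((x k).g ω).IsSymm ∧ ∀ v, v ⬝ᵥ v ≤ qf ((x k).g ω) v := by
    filter_upwards [hx 1 one_pos] with k hk ω hω
    exact ⟨((hk.2.1 ω hω).1).1, ((hk.2.1 ω hω).1).2.1⟩
  have hT : Sp.Typ (S := (tnL t h0 (lb x)).sp) (fun k (ω : (x k).l.T.Ω) =>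
      (gaq (Q.chg S.tr t h0) D).φ k ((x k).l.p.π ω) ((x k).g ω) ≤ cc M * K k) := by
    refine squeeze_zero' (Eventually.of_forall fun k => Sp.mass_res_nonneg (S := (tnL t h0 (lb x)).sp) k _) ?_ hT0
    filter_upwards [hx 1 one_pos] with k hk
    refine mass_res_mono (x k).l.T.μ _ _ (x k).l.T.nn (fun ω hω hE hcon => hE ?_)
    have hA := (hk.2.1 ω hω).1.pdM
    have h3 := phi_two hA hcon.1 h1 (by linarith) (Q.v k ((x k).l.p.π ω))
    show phi ((S.chg S.tr t h0).dl 1 k) ((x k).g ω) (Q.v k ((x k).l.p.π ω)) ≤ _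
    rw [chg_dl, mul_one]
    exact h3.trans (mul_le_mul_of_nonneg_left hcon.2 (zero_le_one.trans (cc_one M)))
  refine ⟨cut_adf (Φ := gaq (Q.chg S.tr t h0) D) (tnL t h0 (lb x)) (dm_tnL (Gau.Adf.dm _ hx)) _ _ hg _ hL hT, ?_⟩
  have hc := cut_typ (Φ := gaq (Q.chg S.tr t h0) D) (tnL t h0 (lb x)) (fun k (ω : (x k).l.T.Ω) => (x k).g ω) hg _ hL hT
  have hc' : Tendsto (fun k => (x k).l.T.pb (fun ω => ¬ Cpd ((gaq (Q.chg S.tr t h0) D).cp k) ((x k).g ω))) UF (𝓝 0) := hc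
  have h2 := hc'.add hT0
  rw [add_zero] at h2
  refine squeeze_zero' (Eventually.of_forall fun k => (x k).l.T.pb_nonneg _) (Eventually.of_forall fun k => ?_) h2
  refine ((x k).l.T.pb_mono ?_).trans (pb_or _ _ _)
  intro ω _ h3
  by_contra h4
  push Not at h4
  exact h3 ⟨cutm_pos h4.1, h4.2.1⟩

theorem tnx_adf [Finite κ] (hx : (gaq Q D).Adf (cs W) x) (hd : ∀ z, Dmz Q z x) (hθ : θ < t) (h0 : 0 < t) (h1 : t ≤ 1)
    (hu : Ub Q x θ) : (gaq (Q.chg S.tr t h0) D).Adf (ct t h0 W) (tnx t h0 Q x) ∧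
      Tendsto (fun k => (x k).l.T.pb (fun ω => ¬ ((tnx t h0 Q x k).g ω = (x k).g ω ∧
        ∀ z, Dmv ((x k).g ω) (sgl z) (2 ^ ((θ + (t - θ)) * (S.F k).n))))) UF (𝓝 0) :=
  tnx_ad_ue hx hd hθ h0 h1 (hu.ue hx)

theorem tau_tendsto (S : Sp) (M : ℕ) :
    Tendsto (fun k => (M : ℝ) * M / (S.F k).n * Real.logb 2 (Real.exp 1)) UF (𝓝 0) := by
  have h1 := (S.div_n_tendsto ((M : ℝ) * M)).mul_const (Real.logb 2 (Real.exp 1))
  rwa [zero_mul] at h1

/-- THE VOLUME OF THE FORM in the truncated space -/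
theorem tnx_vol_ue [Finite κ] (hx : (gaq Q D).Adf (cs W) x) (hd : ∀ z, Dmz Q z x) (hθ : θ < t) (h0 : 0 < t)
    (h1 : t ≤ 1) (hu : Ue Q x θ) : t * (M - vol (Q.chg S.tr t h0) D (tnx t h0 Q x)) = M - vol Q D x := by
  obtain ⟨hy, hE⟩ := tnx_ad_ue hx hd hθ h0 h1 hu
  obtain ⟨C, -, hbd⟩ := gx_bd hx
  obtain ⟨C', -, hbd'⟩ := gx_bd hy
  have hUx := vx_UB hx
  have hUy := vx_UB hy
  have e1 : (fun k => ∑ ω, (x k).l.T.μ ω * (t * gx (Q.chg S.tr t h0) k ((x k).l.p.π ω) ((tnx t h0 Q x k).g ω))) =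
      fun k => t * vx (Q.chg S.tr t h0) (tnx t h0 Q x) k := by
    funext k
    unfold vx
    rw [Finset.mul_sum]
    exact Finset.sum_congr rfl fun ω _ => mul_left_comm _ _ _
  have e2 : (fun k => ∑ ω, (x k).l.T.μ ω * gx Q k ((x k).l.p.π ω) ((x k).g ω)) = vx Q x := rfl
  have hbd2 : ∀ᶠ k in UF, ∀ ω, (x k).l.T.μ ω ≠ 0 →
      0 ≤ gx (Q.chg S.tr t h0) k ((x k).l.p.π ω) ((tnx t h0 Q x k).g ω) ∧
        gx (Q.chg S.tr t h0) k ((x k).l.p.π ω) ((tnx t h0 Q x k).g ω) ≤ C' := hbd'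
  rw [vol_eq, vol_eq, sub_sub_cancel, sub_sub_cancel, ← ul_const_mul _ hUy, ← e1, ← e2]
  have hU1 : UB (fun k => ∑ ω, (x k).l.T.μ ω *
      (t * gx (Q.chg S.tr t h0) k ((x k).l.p.π ω) ((tnx t h0 Q x k).g ω))) := by
    rw [e1]
    exact hUy.const_mul t
  apply le_antisymm
  · refine ul_avg_le (fun k => (x k).l.T) (fun k ω => gx Q k ((x k).l.p.π ω) ((x k).g ω))
      (fun k ω => t * gx (Q.chg S.tr t h0) k ((x k).l.p.π ω) ((tnx t h0 Q x k).g ω))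
      (fun k ω => (tnx t h0 Q x k).g ω = (x k).g ω ∧ ∀ z, Dmv ((x k).g ω) (sgl z) (2 ^ ((θ + (t - θ)) * (S.F k).n)))
      (fun k => (M : ℝ) * M / (S.F k).n * Real.logb 2 (Real.exp 1)) (tau_tendsto S M) (t * C') hE ?_ ?_ ?_ hU1 hUx
    · filter_upwards [hx 1 one_pos] with k hk ω hω h2
      have h3 := gx_two (Q := Q) (hk.2.1 ω hω).1.pdM h2.2 h0 h1 (by linarith) ((x k).l.p.π ω)
      rw [h2.1]
      exact h3.2
    · filter_upwards [hbd2] with k a ω hω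
      exact mul_le_mul_of_nonneg_left (a ω hω).2 h0.le
    · filter_upwards [hbd] with k a ω hω
      exact (a ω hω).1
  · refine ul_avg_le (fun k => (x k).l.T)
      (fun k ω => t * gx (Q.chg S.tr t h0) k ((x k).l.p.π ω) ((tnx t h0 Q x k).g ω))
      (fun k ω => gx Q k ((x k).l.p.π ω) ((x k).g ω))
      (fun k ω => (tnx t h0 Q x k).g ω = (x k).g ω ∧ ∀ z, Dmv ((x k).g ω) (sgl z) (2 ^ ((θ + (t - θ)) * (S.F k).n)))
      (fun k => (M : ℝ) * M / (S.F k).n * Real.logb 2 (Real.exp 1)) (tau_tendsto S M) C hE ?_ ?_ ?_ hUx hU1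
    · filter_upwards [hx 1 one_pos] with k hk ω hω h2
      have h3 := gx_two (Q := Q) (hk.2.1 ω hω).1.pdM h2.2 h0 h1 (by linarith) ((x k).l.p.π ω)
      rw [h2.1]
      exact h3.1
    · filter_upwards [hbd] with k a ω hω
      exact (a ω hω).2
    · filter_upwards [hbd2] with k a ω hω
      exact mul_nonneg h0.le (a ω hω).1

theorem tnx_vol [Finite κ] (hx : (gaq Q D).Adf (cs W) x) (hd : ∀ z, Dmz Q z x) (hθ : θ < t) (h0 : 0 < t) (h1 : t ≤ 1)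
    (hu : Ub Q x θ) : t * (M - vol (Q.chg S.tr t h0) D (tnx t h0 Q x)) = M - vol Q D x :=
  tnx_vol_ue hx hd hθ h0 h1 (hu.ue hx)

end main

end

end Pool.Agent.Helper25.DX
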