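import Pool.Agent.Helper25.DX.Det
import Pool.Agent.Helper89.RAK.Volz
import Pool.Agent.Helper89.RAK.Cmp
import Pool.Agent.Helper41.VC.Main
import Pool.Agent.Helper7.GZ.Row

/-! THE SIZE OF AN OPTIMAL FORM with small exponents: if a form dominates its derivatives (optimal forms and optimal
K-forms do) and its exponent is at most `th < 1`, it is constant up to factors on boxes of side `2 ^ (-(th + e) n)` about
the point, and its matrix is at most `2 ^ ((2 D th + e) n)`. -/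

set_option autoImplicit false

namespace Pool.Agent.Helper25.DX

open Finset Filter Topology Matrix Pool.Agent.Helper69.RK Pool.Agent.Helper31.EC Pool.Agent.Helper31.EC.Sp
open Pool.Agent.Helper40.EL Pool.Agent.Helper89.LX Pool.Agent.Helper3.LF Pool.Agent.Helper84.MT
open Pool.Agent.Helper95.LF
open Pool.Agent.Helper14.MC
open Pool.Agent.Helper4.VZ (sgl sgl_Jq Dmv ee je je_one_le je_pow ee_nonneg)
open Pool.Agent.Helper89.RAK (Dmz DomJ)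
open Pool.Agent.Helper41.VC (xj xj_bd cf cf_nonneg)

noncomputable section

variable {S : Sp} {M D : ℕ} {κ : Type} {Q : S.VV M} {x : ∀ k, FD (S.F k) (Mon M D)}

/-- the exponent of the volume is typically at most `th` -/
def Ub (Q : S.VV M) (x : ∀ k, FD (S.F k) (Mon M D)) (θ : ℝ) : Prop := ∀ ε : ℝ, 0 < ε →
  Sp.Typ (S := (lb x).sp) (fun k (ω : (x k).l.T.Ω) => gx Q k ((x k).l.p.π ω) ((x k).g ω) ≤ θ + ε)

theorem Ub.mono {θ θ' : ℝ} (h : Ub Q x θ) (hθ : θ ≤ θ') : Ub Q x θ' := fun ε hε =>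
  typ_mono (h ε hε) (Eventually.of_forall fun k ω _ h1 => h1.trans (by linarith))

/-- the exponents in the coordinate directions are typically at most `th` (the TOP exponent) -/
def Ue (Q : S.VV M) (x : ∀ k, FD (S.F k) (Mon M D)) (θ : ℝ) : Prop := ∀ ε : ℝ, 0 < ε →
  Sp.Typ (S := (lb x).sp) (fun k (ω : (x k).l.T.Ω) => ∀ z, ee Q x (fun _ _ => sgl z) k ω ≤ θ + ε)

theorem Ue.mono {θ θ' : ℝ} (h : Ue Q x θ) (hθ : θ ≤ θ') : Ue Q x θ' := fun ε hε =>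
  typ_mono (h ε hε) (Eventually.of_forall fun k ω _ h1 z => (h1 z).trans (by linarith))

theorem Ue.min {θ θ' : ℝ} (h : Ue Q x θ) (h' : Ue Q x θ') : Ue Q x (min θ θ') := by
  rcases le_total θ θ' with h1 | h1
  · rwa [min_eq_left h1]
  · rwa [min_eq_right h1]

/-- the exponent in a coordinate direction is at most the exponent of the volume -/
theorem ee_le_gx {A : κ → Part S} (hx : (gaq Q D).Adf A x) : ∃ C : ℝ, 0 ≤ C ∧ ∀ᶠ k in UF, ∀ ω, (x k).l.T.μ ω ≠ 0 →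
    ∀ z, ee Q x (fun _ _ => sgl z) k ω ≤ C / (2 * (S.F k).n) + gx Q k ((x k).l.p.π ω) ((x k).g ω) := by
  rcases M with _ | d
  · exact ⟨0, le_rfl, Eventually.of_forall fun k ω _ z => z.elim0⟩
  · refine ⟨cf d, cf_nonneg d, ?_⟩
    filter_upwards [hx 1 one_pos] with k hk ω hω z
    have h1 := xj_bd Q z k ((x k).l.p.π ω) (hk.2.1 ω hω).1.pdM
    refine le_trans (le_of_eq ?_) h1.2
    unfold ee je xj
    rw [sgl_Jq]

/-- the exponents in the coordinate directions -/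
theorem Ub.ee {A : κ → Part S} (hx : (gaq Q D).Adf A x) {θ : ℝ} (hu : Ub Q x θ) (ε : ℝ) (hε : 0 < ε) :
    Sp.Typ (S := (lb x).sp) (fun k (ω : (x k).l.T.Ω) => ∀ z, ee Q x (fun _ _ => sgl z) k ω ≤ θ + ε) := by
  obtain ⟨C, hC, h1⟩ := ee_le_gx hx
  have h2 : Tendsto (fun k => C / 2 / (S.F k).n) UF (𝓝 0) := S.div_n_tendsto (C / 2)
  refine typ_mono (hu (ε / 2) (by linarith)) ?_
  filter_upwards [h1, h2.eventually (gt_mem_nhds (show (0 : ℝ) < ε / 2 by linarith))] with k a b ω hω c z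
  have h3 := a ω hω z
  have h4 : C / (2 * (S.F k).n) = C / 2 / (S.F k).n := by rw [div_div]
  rw [h4] at h3
  linarith

theorem Ub.ue {A : κ → Part S} (hx : (gaq Q D).Adf A x) {θ : ℝ} (hu : Ub Q x θ) : Ue Q x θ := fun ε hε => hu.ee hx ε hε

theorem Dmv_mono {m : ℕ} {A : Matrix (Mon m D) (Mon m D) ℝ} (hA : ∀ x, 0 ≤ x ⬝ᵥ (A *ᵥ x)) {e : Fin m → ℝ} {L L' : ℝ}
    (h0 : 0 ≤ L) (hL : L ≤ L') (h : Dmv A e L) : Dmv A e L' := fun v =>
  (h v).trans (mul_le_mul_of_nonneg_right (pow_le_pow_left₀ h0 hL 2) (hA v))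

/-- domination of the derivatives, all coordinate directions -/
theorem dmv_ue {A : κ → Part S} (hx : (gaq Q D).Adf A x) (hd : ∀ z, Dmz Q z x) {θ : ℝ} (hu : Ue Q x θ) (ε : ℝ)
    (hε : 0 < ε) : Sp.Typ (S := (lb x).sp) (fun k (ω : (x k).l.T.Ω) =>
      ∀ z, Dmv ((x k).g ω) (sgl z) (2 ^ ((θ + ε) * (S.F k).n))) := by
  have h1 : Sp.Typ (S := (lb x).sp) (fun k (ω : (x k).l.T.Ω) => ∀ z : Fin M,
      Dmv ((x k).g ω) (sgl z) (2 ^ ((ee Q x (fun _ _ => sgl z) k ω + ε / 2) * (S.F k).n))) :=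
    Pool.Agent.Helper7.GZ.Typ_all (S := (lb x).sp) _ fun z => Dmz.typ (hd z) hx (ε / 2) (by linarith)
  refine typ_mono (typ_and h1 (hu (ε / 2) (by linarith))) ?_
  filter_upwards [hx 1 one_pos] with k a ω hω h z
  have hA := (a.2.1 ω hω).1
  refine Dmv_mono hA.psd.2 (by positivity) ?_ (h.1 z)
  apply Real.rpow_le_rpow_of_exponent_le (by norm_num)
  apply mul_le_mul_of_nonneg_right _ (S.F k).pos.le
  have := h.2 z
  linarith

theorem dmv_typ {A : κ → Part S} (hx : (gaq Q D).Adf A x) (hd : ∀ z, Dmz Q z x) {θ : ℝ} (hu : Ub Q x θ) (ε : ℝ)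
    (hε : 0 < ε) : Sp.Typ (S := (lb x).sp) (fun k (ω : (x k).l.T.Ω) =>
      ∀ z, Dmv ((x k).g ω) (sgl z) (2 ^ ((θ + ε) * (S.F k).n))) := dmv_ue hx hd (hu.ue hx) ε hε

/-- THE SIZE OF THE MATRIX -/
theorem size_ue {A : κ → Part S} (hx : (gaq Q D).Adf A x) (hd : ∀ z, Dmz Q z x) {θ : ℝ} (h0 : 0 ≤ θ) (h1 : θ < 1)
    (hu : Ue Q x θ) (ε : ℝ) (hε : 0 < ε) : Sp.Typ (S := (lb x).sp) (fun k (ω : (x k).l.T.Ω) =>
      ∀ v, qf ((x k).g ω) v ≤ 2 ^ ((2 * D * θ + ε) * (S.F k).n) * (v ⬝ᵥ v)) := by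
  obtain ⟨C, hC0, hC⟩ := exists_size M D
  obtain ⟨K, hK, hφ⟩ := adf_sub hx
  obtain ⟨B, hB, hb⟩ := Q.bd
  obtain ⟨η, hη⟩ : ∃ η, η = min (1 - θ) (ε / (4 * (D + 1))) := ⟨_, rfl⟩
  have hη0 : 0 < η := by
    rw [hη]
    apply lt_min (by linarith)
    positivity
  have hη1 : θ + η ≤ 1 := by
    have := min_le_left (1 - θ) (ε / (4 * (D + 1)))
    rw [← hη] at this
    linarith
  have hη2 : 2 * D * η ≤ ε / 2 := by
    have h2 := min_le_right (1 - θ) (ε / (4 * (D + 1)))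
    rw [← hη, le_div_iff₀ (by positivity)] at h2
    nlinarith
  have hs : S.Sub (fun k => C * (B k + 1) ^ (2 * D) * K k) :=
    ((S.Sub_const hC0).mul (Sub_pow' (hB.add (S.Sub_const zero_le_one)) _)).mul hK
  refine typ_mono (typ_and (dmv_ue hx hd hu η hη0) hφ) ?_
  filter_upwards [hx 1 one_pos, hb, hB.1, hK.1, hs.eventually_le (show (0 : ℝ) < ε / 2 by linarith)]
    with k a b B0 K0 c ω hω h v
  have hn := (S.F k).pos
  have hA := (a.2.1 ω hω).1.pdM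
  have hω' := (x k).l.p.supp ω hω
  obtain ⟨L, hL⟩ : ∃ L : ℝ, L = 2 ^ ((θ + η) * (S.F k).n) := ⟨_, rfl⟩
  have hL1 : 1 ≤ L := by
    rw [hL]
    exact Real.one_le_rpow (by norm_num) (mul_nonneg (by linarith) hn.le)
  have hr : S.dl 1 k ≤ L⁻¹ := by
    rw [hL, ← Real.rpow_neg (by norm_num), Pool.Agent.Helper4.VZ.dl_rpow]
    apply Real.rpow_le_rpow_of_exponent_le (by norm_num)
    nlinarith
  have h2 := hC _ hA L hL1 (by rw [hL]; exact h.1) (S.dl 1 k) (B k + 1) (Q.v k ((x k).l.p.π ω)) (S.dl_pos 1 k).le hr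
    (by linarith) (fun i => by
      have := b _ hω' i
      linarith) v
  have h3 : phi (S.dl 1 k) ((x k).g ω) (Q.v k ((x k).l.p.π ω)) ≤ K k := h.2
  refine h2.trans ?_
  apply mul_le_mul_of_nonneg_right _ (dot_self_nonneg v)
  have e1 : L ^ (2 * D) = 2 ^ (2 * D * (θ + η) * (S.F k).n) := by
    rw [hL, ← Real.rpow_natCast, ← Real.rpow_mul (by norm_num)]
    congr 1
    push_cast
    ring
  have hφ0 := phi_nonneg (S.dl 1 k) (fun y => hA.nonneg y) (Q.v k ((x k).l.p.π ω))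
  calc C * (B k + 1) ^ (2 * D) * L ^ (2 * D) * phi (S.dl 1 k) ((x k).g ω) (Q.v k ((x k).l.p.π ω))
      ≤ C * (B k + 1) ^ (2 * D) * L ^ (2 * D) * K k := mul_le_mul_of_nonneg_left h3 (by positivity)
    _ = (C * (B k + 1) ^ (2 * D) * K k) * 2 ^ (2 * D * (θ + η) * (S.F k).n) := by rw [e1]; ring
    _ ≤ 2 ^ (ε / 2 * (S.F k).n) * 2 ^ (2 * D * (θ + η) * (S.F k).n) := by
        apply mul_le_mul_of_nonneg_right _ (by positivity)
        linarith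
    _ ≤ 2 ^ ((2 * D * θ + ε) * (S.F k).n) := by
        rw [← Real.rpow_add (by norm_num)]
        apply Real.rpow_le_rpow_of_exponent_le (by norm_num)
        have h4 : 2 * D * η * (S.F k).n ≤ ε / 2 * (S.F k).n := mul_le_mul_of_nonneg_right hη2 hn.le
        nlinarith

theorem size_typ {A : κ → Part S} (hx : (gaq Q D).Adf A x) (hd : ∀ z, Dmz Q z x) {θ : ℝ} (h0 : 0 ≤ θ) (h1 : θ < 1)
    (hu : Ub Q x θ) (ε : ℝ) (hε : 0 < ε) : Sp.Typ (S := (lb x).sp) (fun k (ω : (x k).l.T.Ω) =>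
      ∀ v, qf ((x k).g ω) v ≤ 2 ^ ((2 * D * θ + ε) * (S.F k).n) * (v ⬝ᵥ v)) := size_ue hx hd h0 h1 (hu.ue hx) ε hε

/-- the size of a form which is dominated -/
theorem sizd_ue {y : ∀ k, FD (S.F k) (Mon M D)} {A : κ → Part S} (hx : (gaq Q D).Adf A x) (hd : ∀ z, Dmz Q z x)
    {θ : ℝ} (h0 : 0 ≤ θ) (h1 : θ < 1) (hu : Ue Q x θ) (hxy : DomJ x y) (ε : ℝ) (hε : 0 < ε) :
    Sp.Typ (S := (lb y).sp) (fun k (ω : (y k).l.T.Ω) =>
      ∀ v, qf ((y k).g ω) v ≤ 2 ^ ((2 * D * θ + ε) * (S.F k).n) * (v ⬝ᵥ v)) := by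
  have hε2 : 0 < ε / 2 := by linarith
  have h3 := (hxy _ hε2).add (size_ue hx hd h0 h1 hu _ hε2)
  rw [add_zero] at h3
  refine tendsto_of_tendsto_of_tendsto_of_le_of_le tendsto_const_nhds h3
    (fun k => (y k).l.T.pb_nonneg _) (fun k => ?_)
  have h4 := pb_push ((x k).l.am (y k).l).p2 (fun ω =>
      ¬ ∀ v, qf ((y k).g ω) v ≤ 2 ^ ((2 * D * θ + ε) * (S.F k).n) * (v ⬝ᵥ v))
  have h5 := pb_push ((x k).l.am (y k).l).p1 (fun ω =>
      ¬ ∀ v, qf ((x k).g ω) v ≤ 2 ^ ((2 * D * θ + ε / 2) * (S.F k).n) * (v ⬝ᵥ v))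
  show (y k).l.T.pb _ ≤ ((x k).jj (y k)).l.T.pb _ + (x k).l.T.pb _
  have e4 : (y k).l.T.pb (fun ω => ¬ ∀ v, qf ((y k).g ω) v ≤ 2 ^ ((2 * D * θ + ε) * (S.F k).n) * (v ⬝ᵥ v)) =
      ((x k).l.am (y k).l).sp.pb (fun w => ¬ ∀ v, qf ((y k).g (((x k).l.am (y k).l).p2.π w)) v ≤
        2 ^ ((2 * D * θ + ε) * (S.F k).n) * (v ⬝ᵥ v)) := h4.symm
  have e5 : (x k).l.T.pb (fun ω => ¬ ∀ v, qf ((x k).g ω) v ≤ 2 ^ ((2 * D * θ + ε / 2) * (S.F k).n) * (v ⬝ᵥ v)) =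
      ((x k).l.am (y k).l).sp.pb (fun w => ¬ ∀ v, qf ((x k).g (((x k).l.am (y k).l).p1.π w)) v ≤
        2 ^ ((2 * D * θ + ε / 2) * (S.F k).n) * (v ⬝ᵥ v)) := h5.symm
  refine e4.trans_le ((FSp.pb_mono _ (E' := fun w : ((x k).l.am (y k).l).sp.Ω =>
    (¬ ∀ v, qf (((x k).jj (y k)).g' w) v ≤ 2 ^ (ε / 2 * (S.F k).n) * qf (((x k).jj (y k)).g w) v) ∨
    ¬ ∀ v, qf ((x k).g (((x k).l.am (y k).l).p1.π w)) v ≤ 2 ^ ((2 * D * θ + ε / 2) * (S.F k).n) * (v ⬝ᵥ v)) ?_).trans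
      ((pb_or _ _ _).trans (add_le_add le_rfl e5.symm.le)))
  intro w _ h6
  by_contra hc
  rw [not_or, not_not, not_not] at hc
  apply h6
  intro v
  have h7 : qf ((y k).g (((x k).l.am (y k).l).p2.π w)) v ≤ 2 ^ (ε / 2 * (S.F k).n) *
      qf ((x k).g (((x k).l.am (y k).l).p1.π w)) v := hc.1 v
  refine h7.trans ((mul_le_mul_of_nonneg_left (hc.2 v) (by positivity)).trans (le_of_eq ?_))
  rw [← mul_assoc, ← Real.rpow_add (by norm_num)]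
  congr 2
  ring

theorem size_dom {A B : κ → Part S} {y : ∀ k, FD (S.F k) (Mon M D)} (hx : (gaq Q D).Adf A x) (hd : ∀ z, Dmz Q z x)
    {θ : ℝ} (h0 : 0 ≤ θ) (h1 : θ < 1) (hu : Ub Q x θ) (hxy : DomJ x y) (ε : ℝ) (hε : 0 < ε) :
    Sp.Typ (S := (lb y).sp) (fun k (ω : (y k).l.T.Ω) =>
      ∀ v, qf ((y k).g ω) v ≤ 2 ^ ((2 * D * θ + ε) * (S.F k).n) * (v ⬝ᵥ v)) :=
  sizd_ue hx hd h0 h1 (hu.ue hx) hxy ε hε

end

end Pool.Agent.Helper25.DX
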