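import Pool.Agent.Helper25.DX.Win
import Pool.Agent.Helper48.ROK.Ev
import Pool.Agent.Helper29.MX.Bas

/-! EXPONENTS FROM VOLUMES ON EVENTS: if the volumes of all K-admissible forms on all events of all extensions are at least
`M - th`, the exponents of every K-admissible form are typically at most `th`. -/

set_option autoImplicit false

namespace Pool.Agent.Helper25.DX

open Finset Filter Topology Matrix Pool.Agent.Helper69.RK Pool.Agent.Helper31.EC Pool.Agent.Helper31.EC.Sp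
open Pool.Agent.Helper40.EL Pool.Agent.Helper89.LX Pool.Agent.Helper3.LF Pool.Agent.Helper84.MT
open Pool.Agent.Helper14.MC
open Pool.Agent.Helper89.RAK (KC Lit)
open Pool.Agent.Helper48.ROK (im_kz_ev)

noncomputable section

variable {S : Sp} {M D : ℕ} {κ : Type}

/-- EXPONENTS FROM VOLUMES ON EVENTS -/
theorem ub_low [Finite κ] {A : κ → Part S} {Q : S.VV M} {R : ∀ k, Setoid (S.F k).Ω} (hR : Lit R Q)
    {x : ∀ k, FD (S.F k) (Mon M D)} (hx : (gaq Q D).AdfK (KC R) A x) {θ : ℝ}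
    (hlow : ∀ (T : Sp) (p : Pj T S) (E : ∀ k, (T.F k).Ω → Prop) (_ : 0 < ul (T.pr E))
      (y : ∀ k, FD ((Sp.im p E).F k) (Mon M D)), (gaq (Q.im p E) D).AdfK (LC.kz (S := Sp.im p E) fun k => fc (R k))
        (fun i => (A i).im p E) y → M - θ ≤ vol (Q.im p E) D y) : Ub Q x θ := by
  intro e he
  set B : ∀ k, ((lbS x).sp.F k).Ω → Prop := fun k (ω : (x k).l.T.Ω) =>
    ¬ gx Q k ((x k).l.p.π ω) ((x k).g ω) ≤ θ + e with hBdef
  have hU : UB ((lbS x).sp.pr B) := UB_pr (S := (lbS x).sp) B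
  have hBk : ∀ k (ω ω' : (x k).l.T.Ω), (x k).l.T.μ ω ≠ 0 → (x k).l.T.μ ω' ≠ 0 → (x k).l.V ω ω' → (x k).l.T.Z ω ω' →
      R k ((x k).l.p.π ω) ((x k).l.p.π ω') → (B k ω ↔ B k ω') := by
    intro k ω ω' a b c d r
    have h1 : Q.v k ((x k).l.p.π ω) = Q.v k ((x k).l.p.π ω') := hR k r
    have h2 := ((x k).meas ω ω' a b c d).1
    have h3 : gx Q k ((x k).l.p.π ω) ((x k).g ω) = gx Q k ((x k).l.p.π ω') ((x k).g ω') := by
      unfold gx
      rw [h1, h2]
    show (¬ _) ↔ (¬ _)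
    rw [h3]
  have h0 : ul ((lbS x).sp.pr B) ≤ 0 := by
    by_contra hc
    have hpos : 0 < ul ((lbS x).sp.pr B) := not_le.1 hc
    have hadm : (gaq (Q.im (lbS x).pj B) D).Adf (fun i => (A i).im (lbS x).pj B) (reS x B) := by
      rw [gaq_im]
      exact Gau.Adf.re hx.1 B hpos
    have hkz := im_kz_ev (l := lbS x) B hx.2 hBk
    have k1 := hlow _ (lbS x).pj B hpos (reS x B) ⟨hadm, hkz⟩
    rw [vol_eq] at k1
    have k4 : θ + e ≤ ul (vx (Q.im (lbS x).pj B) (reS x B)) := by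
      apply const_le_ul (vx_UB hadm)
      filter_upwards [pr_half' (S := (lbS x).sp) hpos] with k hk
      have hpb : (x k).l.T.pb (B k) ≠ 0 := by
        have h5 : 0 < ul ((lbS x).sp.pr B) / 2 := by linarith
        exact (lt_of_lt_of_le h5 hk).ne'
      show θ + e ≤ ∑ ω, ((x k).l.T.rest (B k)).μ ω * gx Q k ((x k).l.p.π ω) ((x k).g ω)
      have e1 : ∑ ω, ((x k).l.T.rest (B k)).μ ω = 1 := ((x k).l.T.rest (B k)).ms
      have e2 : θ + e = ∑ ω, ((x k).l.T.rest (B k)).μ ω * (θ + e) := by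
        rw [← Finset.sum_mul, e1, one_mul]
      rw [e2]
      refine Finset.sum_le_sum fun ω _ => ?_
      by_cases hω : ((x k).l.T.rest (B k)).μ ω = 0
      · rw [hω, zero_mul, zero_mul]
      · have h6 := ((x k).l.T.rest_supp (B k) ω hω).2 hpb
        exact mul_le_mul_of_nonneg_left (not_le.1 h6).le (((x k).l.T.rest (B k)).nn ω)
    linarith
  have h1 : 0 ≤ ul ((lbS x).sp.pr B) := const_le_ul hU (Eventually.of_forall fun k => (x k).l.T.pb_nonneg _)
  have h2 := ul_tendsto hU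
  rw [le_antisymm h0 h1] at h2
  exact h2

end

end Pool.Agent.Helper25.DX
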