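import Pool.Agent.Helper25.DX.Deg
import Pool.Agent.Helper71.VIS.Trk

/-! DEGREES OF HULLS OF K-LABELS AT A WINDOW `c > 0`, part 2: the degree of the K-hull of the window `c` is bounded in
terms of the number `g` such that `c g` is larger than the exponents over the cells of level `c`; the complexity of the
leaves does not matter. -/

set_option autoImplicit false

namespace Pool.Agent.Helper25.DX

open Finset Filter Topology Matrix Pool.Agent.Helper69.RK Pool.Agent.Helper31.EC Pool.Agent.Helper31.EC.Sp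
open Pool.Agent.Helper40.EL Pool.Agent.Helper89.LX Pool.Agent.Helper3.LF Pool.Agent.Helper84.MT
open Pool.Agent.Helper95.LF Pool.Agent.Helper3.PR
open Pool.Agent.Helper14.MC
open Pool.Agent.Helper36.AM (STu)
open Pool.Agent.Helper4.VZ (sgl ee)
open Pool.Agent.Helper89.RAK (Dmz DomJ KC Lit slf_K)
open Pool.Agent.Helper89.RAD (cnA dp DMA ZW DMD mkD lit_ple mkD_leak mkD_kz zR volD_zoom optD_out lit_zoom ofZM)
open Pool.Agent.Helper89.TAY (aff)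
open Pool.Agent.Helper7.RD (volC volCO volC_eq volC_le_of volCO_le)
open Pool.Agent.Helper52.SL (untF tnF untL tnL nul_trn cellv_chg untF_leak tnF_leak)

noncomputable section

variable {S : Sp} {M D : ℕ} {E : ℕ → ℕ} {ι : Type}

/-- ONE WINDOW, one truncation: volumes of the system against the volumes of the truncated system -/
theorem deg_trn_ue [Finite ι] (s : MSys S M E ι) (R : ∀ k, Setoid (S.F k).Ω) (hlit : Lit R s.Q) {c t : ℝ} (h0 : 0 < t)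
    (h1 : t ≤ 1) {θ : ℝ} (hθ : θ < t) {D₁ : ℕ}
    (hu : ∀ x : ∀ k, FD (S.F k) (Mon M D), (gaq s.Q D).OptfK (KC R) (cnA s (dp R) c) x → Ue s.Q x θ)
    (hd : volC (KC (rt t h0 R)) (ct t h0 (wd s R c)) (s.Q.chg S.tr t h0) D₁ ≤
      volC (KC (rt t h0 R)) (ct t h0 (wd s R c)) (s.Q.chg S.tr t h0) D) :
    volC (KC R) (cnA s (dp R) c) s.Q D₁ ≤ volC (KC R) (cnA s (dp R) c) s.Q D := by
  obtain ⟨x, hx⟩ := (gaq s.Q D).exists_optfK (KC R) (cnA s (dp R) c)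
  have h2 := hu x hx
  have h3 := Pool.Agent.Helper71.VIS.volC_trn s.Q h0 h1 (wd s R c) R D₁
  rw [← cs_wd] at hx
  have h4 := volC_tn_ue (hlit.cell 1) hx h2 hθ h0 h1
  rw [← cs_wd]
  have h5 : t * (M - volC (KC (rt t h0 R)) (ct t h0 (wd s R c)) (s.Q.chg S.tr t h0) D₁) ≤
      M - volC (KC R) (cs (wd s R c)) s.Q D₁ := h3
  have h6 := mul_le_mul_of_nonneg_left (sub_le_sub_left hd (M : ℝ)) h0.le
  linarith

theorem deg_trn [Finite ι] (s : MSys S M E ι) (R : ∀ k, Setoid (S.F k).Ω) (hlit : Lit R s.Q) {c t : ℝ} (h0 : 0 < t)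
    (h1 : t ≤ 1) {θ : ℝ} (hθ : θ < t) {D₁ : ℕ}
    (hu : ∀ x : ∀ k, FD (S.F k) (Mon M D), (gaq s.Q D).OptfK (KC R) (cnA s (dp R) c) x → Ub s.Q x θ)
    (hd : volC (KC (rt t h0 R)) (ct t h0 (wd s R c)) (s.Q.chg S.tr t h0) D₁ ≤
      volC (KC (rt t h0 R)) (ct t h0 (wd s R c)) (s.Q.chg S.tr t h0) D) :
    volC (KC R) (cnA s (dp R) c) s.Q D₁ ≤ volC (KC R) (cnA s (dp R) c) s.Q D :=
  deg_trn_ue s R hlit h0 h1 hθ (fun x hx => (hu x hx).ue hx.1.1) hd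

/-- the cells of level `c` as a K-label -/
def clab (s : MSys S M E ι) {c : ℝ} (h0 : 0 ≤ c) (h1 : c < 1) : ZM s :=
  s.mkz h0 h1 (l := fun k => FLab.triv (S.F k)) (Lab.DMf_triv _)

theorem clab_leak (s : MSys S M E ι) {c : ℝ} (h0 : 0 ≤ c) (h1 : c < 1) {R : ∀ k, Setoid (S.F k).Ω} (hlit : Lit R s.Q) :
    Nul S fun k => ((ofZM (clab s h0 h1)).l k).leak (dp R k) :=
  mkD_leak h0 h1 (lit_ple hlit c) (DMD.triv (s := s) (A := dp R) (R := R) c)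

theorem clab_kz (s : MSys S M E ι) {c : ℝ} (h0 : 0 ≤ c) (h1 : c < 1) {R : ∀ k, Setoid (S.F k).Ω} (hlit : Lit R s.Q) :
    (KC R).ev (ofZM (clab s h0 h1)).l :=
  mkD_kz h0 h1 (lit_ple hlit c) hlit (DMD.triv (s := s) (A := dp R) (R := R) c)

/-- the volumes of the window `c` and of the zoom over the cells of level `c` -/
theorem vol_cz [Finite ι] (s : MSys S M E ι) {R : ∀ k, Setoid (S.F k).Ω} (hlit : Lit R s.Q) {c : ℝ} (h0 : 0 ≤ c)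
    (h1 : c < 1) {D : ℕ} (hD : 1 ≤ D) : volC (KC R) (cnA s (dp R) c) s.Q D =
      (1 - c) * volC (KC (zR (ofZM (clab s h0 h1)) R)) (cnA (ofZM (clab s h0 h1)).sys
        (dp (zR (ofZM (clab s h0 h1)) R)) 0) (ofZM (clab s h0 h1)).sys.Q D := by
  set Z := ofZM (clab s h0 h1) with hZ
  obtain ⟨y, hy⟩ := (gaq Z.sys.Q D).exists_optfK (KC (zR Z R)) (cnA Z.sys (Z.upz (dp R)) 0)
  have hx := optD_out Z (clab_leak s h0 h1 hlit) (clab_kz s h0 h1 hlit) le_rfl hy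
  have h2 := volD_zoom Z (clab_leak s h0 h1 hlit) (clab_kz s h0 h1 hlit) hD le_rfl hy hx
  have e1 : Z.c + Z.e * 0 = c := by
    rw [mul_zero, add_zero]
    rfl
  have hy' := volC_eq hy
  have hx' := volC_eq hx
  rw [e1] at hx'
  rw [hx', h2]
  exact congrArg (fun v => (1 - c) * v) hy'.symm

/-- exponents in the coordinate directions, from the zoom to the system -/
theorem je_out {s : MSys S M E ι} (Z : ZW s) (hD : 1 ≤ D) (y : ∀ k, FD (Z.sp.F k) (Mon M D)) (k : ℕ)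
    (ω : (y k).l.T.Ω) {c : ℝ} (hc : Cpd c ((y k).g ω)) (z : Fin M) : Z.e * (Real.logb 2 (1 + sgl z ⬝ᵥ
      (Jq (Z.sp.dl 1 k) ((y k).g ω) (Z.sys.Q.v k ((y k).l.p.π ω)) *ᵥ sgl z)) / (2 * (Z.sp.F k).n)) ≤
      Real.logb 2 (1 + sgl z ⬝ᵥ (Jq (S.dl 1 k) (Z.zfm y k ω) (s.Q.v k ((Z.l k).p.π ((y k).l.p.π ω))) *ᵥ sgl z)) /
        (2 * (S.F k).n) + (-Z.c + 1 / 2 * (1 / (S.F k).n)) := by
  have hn := (S.F k).pos
  have he := Z.e_pos
  have hd := S.dl_pos Z.c k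
  have hA : PdM (Z.zfm y k ω) := one_afm_pd _ _ hc.1 fun v => hc.psd.2 v
  have h5 : Pool.Agent.Helper3.ZM.aff (Z.oi k ((Z.l k).p.π ((y k).l.p.π ω))) (S.dl Z.c k)⁻¹
      (s.Q.v k ((Z.l k).p.π ((y k).l.p.π ω))) = Z.sys.Q.v k ((y k).l.p.π ω) := Z.aff_fr' k _
  have h2 := Pool.Agent.Helper26.MZ.Jq_ge_self hD (Z.sp.dl 1 k) hc.2.1 (Z.sys.Q.v k ((y k).l.p.π ω)) (sgl z)
  have hs : sgl z ⬝ᵥ (sgl z : Fin M → ℝ) = 1 := by
    rw [show (sgl z : Fin M → ℝ) = Pi.single z 1 from rfl, single_dotProduct, one_mul, Pi.single_eq_same]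
  have h3 : sgl z ⬝ᵥ (Jq (S.dl 1 k) (Pool.Agent.Helper3.ZM.afm (Z.oi k ((Z.l k).p.π ((y k).l.p.π ω)))
      (S.dl Z.c k)⁻¹ ((y k).g ω)) (s.Q.v k ((Z.l k).p.π ((y k).l.p.π ω))) *ᵥ sgl z) ≤
      sgl z ⬝ᵥ (Jq (S.dl 1 k) (Z.zfm y k ω) (s.Q.v k ((Z.l k).p.π ((y k).l.p.π ω))) *ᵥ sgl z) :=
    Jq_mono _ (afm_le_one_afm _ _ _) _ _
  rw [Pool.Agent.Helper26.MZ.Jq_afm, dv_smul, h5, Z.dl_inv] at h3
  rw [hs] at h2
  obtain ⟨b, hb⟩ : ∃ b : ℝ, b = sgl z ⬝ᵥ (Jq (Z.sp.dl 1 k) ((y k).g ω) (Z.sys.Q.v k ((y k).l.p.π ω)) *ᵥ sgl z) :=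
    ⟨_, rfl⟩
  obtain ⟨a, ha⟩ : ∃ a : ℝ, a = sgl z ⬝ᵥ (Jq (S.dl 1 k) (Z.zfm y k ω) (s.Q.v k ((Z.l k).p.π ((y k).l.p.π ω))) *ᵥ
    sgl z) := ⟨_, rfl⟩
  rw [← hb] at h2 h3
  rw [← ha] at h3
  rw [← ha, ← hb]
  have h6 : (1 : ℝ) + b ≤ 2 * (S.dl Z.c k) ^ 2 * (1 + a) := by
    have h7 : b ≤ (S.dl Z.c k) ^ 2 * a := by
      have h8 : b = (S.dl Z.c k) ^ 2 * (((S.dl Z.c k)⁻¹) ^ 2 * b) := by
        field_simp
      rw [h8]
      exact mul_le_mul_of_nonneg_left h3 (by positivity)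
    have h9 : 0 ≤ (S.dl Z.c k) ^ 2 := by positivity
    nlinarith
  have a4 := Real.logb_le_logb_of_le (b := 2) (by norm_num) (by linarith) h6
  have ha0 : 0 < 1 + a := by
    by_contra hc0
    have h10 : 2 * (S.dl Z.c k) ^ 2 * (1 + a) ≤ 0 := mul_nonpos_of_nonneg_of_nonpos (by positivity) (not_lt.1 hc0)
    linarith
  rw [Real.logb_mul (by positivity) ha0.ne', Real.logb_mul (by norm_num) (by positivity),
    Real.logb_self_eq_one (by norm_num), Real.logb_pow, Z.log_dl] at a4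
  rw [Z.sp_n]
  have e1 : Z.e * (Real.logb 2 (1 + b) / (2 * (Z.e * (S.F k).n))) = Real.logb 2 (1 + b) / (2 * (S.F k).n) := by
    field_simp
  rw [e1, div_le_iff₀ (by positivity)]
  refine a4.trans (le_of_eq ?_)
  push_cast
  field_simp
  ring

/-- exponents in the coordinate directions of a form of a zoom -/
theorem ue_zw [Finite ι] {s : MSys S M E ι} (Z : ZW s) (hD : 1 ≤ D) {κ : Type} {A : κ → Part Z.sp} {θ : ℝ}
    {y : ∀ k, FD (Z.sp.F k) (Mon M D)} (hy : (gaq Z.sys.Q D).Adf A y) (hu : Ue s.Q (Z.out y) θ) :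
    Ue Z.sys.Q y ((θ - Z.c) / Z.e) := by
  have he := Z.e_pos
  intro ε hε
  have h3 : Sp.Typ (S := (lb (Z.out y)).sp) (fun k (ω : (Z.out y k).l.T.Ω) =>
      ∀ z, ee s.Q (Z.out y) (fun _ _ => sgl z) k ω ≤ θ + Z.e * ε / 2) := hu (Z.e * ε / 2) (by positivity)
  have h3' : Tendsto (fun k => (y k).l.T.pb (fun ω => ¬ ∀ z, Real.logb 2 (1 + sgl z ⬝ᵥ (Jq (S.dl 1 k)
      ((Z.out y k).g ω) (s.Q.v k ((Z.l k).p.π ((y k).l.p.π ω))) *ᵥ sgl z)) / (2 * (S.F k).n) ≤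
      θ + Z.e * ε / 2)) UF (𝓝 0) := h3
  have h4 : Tendsto (fun k => (y k).l.T.pb (fun ω => ¬ Cpd ((gaq s.Q D).cp k) (Z.zfm y k ω))) UF (𝓝 0) :=
    Z.out_typ hy
  have h5 := h3'.add h4
  rw [add_zero] at h5
  have h6 : Tendsto (fun k => 1 / 2 * (1 / (S.F k).n)) UF (𝓝 0) := by
    have := (S.div_n_tendsto 1).const_mul ((1 : ℝ) / 2)
    rwa [mul_zero] at this
  show Tendsto (fun k => (y k).l.T.pb (fun ω => ¬ ∀ z, Real.logb 2 (1 + sgl z ⬝ᵥ (Jq (Z.sp.dl 1 k) ((y k).g ω)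
      (Z.sys.Q.v k ((y k).l.p.π ω)) *ᵥ sgl z)) / (2 * (Z.sp.F k).n) ≤ (θ - Z.c) / Z.e + ε)) UF (𝓝 0)
  refine squeeze_zero' (Eventually.of_forall fun k => (y k).l.T.pb_nonneg _) ?_ h5
  filter_upwards [hy 1 one_pos, h6.eventually (gt_mem_nhds (show (0 : ℝ) < Z.e * ε / 2 by positivity))]
    with k a b
  refine ((y k).l.T.pb_mono ?_).trans (pb_or _ _ _)
  intro ω hω h7
  by_contra h8
  push Not at h8
  apply h7
  intro z
  have a1 := je_out Z hD y k ω (a.2.1 ω hω).1 z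
  have a0 := Z.out_g k ω h8.2
  have a2 := h8.1 z
  rw [a0] at a2
  have h9 : Real.logb 2 (1 + sgl z ⬝ᵥ (Jq (Z.sp.dl 1 k) ((y k).g ω) (Z.sys.Q.v k ((y k).l.p.π ω)) *ᵥ sgl z)) /
      (2 * (Z.sp.F k).n) ≤ ((θ - Z.c) + Z.e * ε) / Z.e := by
    rw [le_div_iff₀ he]
    linarith
  refine h9.trans (le_of_eq ?_)
  field_simp

/-- exponents of a form of a zoom -/
theorem ub_zw [Finite ι] {s : MSys S M E ι} (Z : ZW s) (hD : 1 ≤ D) {κ : Type} {A : κ → Part Z.sp} {θ : ℝ}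
    {y : ∀ k, FD (Z.sp.F k) (Mon M D)} (hy : (gaq Z.sys.Q D).Adf A y) (hu : Ub s.Q (Z.out y) θ) :
    Ub Z.sys.Q y ((θ - M * Z.c) / Z.e) := by
  have he := Z.e_pos
  intro ε hε
  have h3 : Sp.Typ (S := (lb (Z.out y)).sp) (fun k (ω : (Z.out y k).l.T.Ω) =>
      gx s.Q k ((Z.out y k).l.p.π ω) ((Z.out y k).g ω) ≤ θ + Z.e * ε / 2) := hu (Z.e * ε / 2) (by positivity)
  have h3' : Tendsto (fun k => (y k).l.T.pb (fun ω => ¬ gx s.Q k ((Z.l k).p.π ((y k).l.p.π ω)) ((Z.out y k).g ω) ≤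
      θ + Z.e * ε / 2)) UF (𝓝 0) := h3
  have h4 : Tendsto (fun k => (y k).l.T.pb (fun ω => ¬ Cpd ((gaq s.Q D).cp k) (Z.zfm y k ω))) UF (𝓝 0) :=
    Z.out_typ hy
  have h5 := h3'.add h4
  rw [add_zero] at h5
  have h6 : Tendsto (fun k => (M : ℝ) / 2 * (1 / (S.F k).n)) UF (𝓝 0) := by
    have := (S.div_n_tendsto 1).const_mul ((M : ℝ) / 2)
    rwa [mul_zero] at this
  show Tendsto (fun k => (y k).l.T.pb (fun ω => ¬ gx Z.sys.Q k ((y k).l.p.π ω) ((y k).g ω) ≤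
      (θ - M * Z.c) / Z.e + ε)) UF (𝓝 0)
  refine squeeze_zero' (Eventually.of_forall fun k => (y k).l.T.pb_nonneg _) ?_ h5
  filter_upwards [hy 1 one_pos, h6.eventually (gt_mem_nhds (show (0 : ℝ) < Z.e * ε / 2 by positivity))]
    with k a b
  refine ((y k).l.T.pb_mono ?_).trans (pb_or _ _ _)
  intro ω hω h7
  by_contra h8
  push Not at h8
  apply h7
  have a1 := Z.gx_out hD y k ω (a.2.1 ω hω).1
  have a0 := Z.out_g k ω h8.2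
  have a2 := h8.1
  rw [a0] at a2
  have h9 : gx Z.sys.Q k ((y k).l.p.π ω) ((y k).g ω) ≤ ((θ - M * Z.c) + Z.e * ε) / Z.e := by
    rw [le_div_iff₀ he]
    linarith
  refine h9.trans (le_of_eq ?_)
  field_simp

/-- the exponents of the zoom over the cells of level `c` -/
theorem ub_cz [Finite ι] (s : MSys S M E ι) {R : ∀ k, Setoid (S.F k).Ω} (hlit : Lit R s.Q) {c : ℝ} (h0 : 0 ≤ c)
    (h1 : c < 1) (hD : 1 ≤ D) {θ : ℝ}
    (hu : ∀ x : ∀ k, FD (S.F k) (Mon M D), (gaq s.Q D).OptfK (KC R) (cnA s (dp R) c) x → Ub s.Q x θ)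
    {y : ∀ k, FD ((ofZM (clab s h0 h1)).sp.F k) (Mon M D)}
    (hy : (gaq (ofZM (clab s h0 h1)).sys.Q D).OptfK (KC (zR (ofZM (clab s h0 h1)) R)) (cnA (ofZM (clab s h0 h1)).sys
        (dp (zR (ofZM (clab s h0 h1)) R)) 0) y) : Ub (ofZM (clab s h0 h1)).sys.Q y ((θ - M * c) / (1 - c)) := by
  have hx := optD_out (ofZM (clab s h0 h1)) (clab_leak s h0 h1 hlit) (clab_kz s h0 h1 hlit) le_rfl hy
  have e1 : (ofZM (clab s h0 h1)).c + (ofZM (clab s h0 h1)).e * 0 = c := by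
    rw [mul_zero, add_zero]
    rfl
  rw [e1] at hx
  exact ub_zw (ofZM (clab s h0 h1)) hD hy.1.1 (hu _ hx)

theorem ue_cz [Finite ι] (s : MSys S M E ι) {R : ∀ k, Setoid (S.F k).Ω} (hlit : Lit R s.Q) {c : ℝ} (h0 : 0 ≤ c)
    (h1 : c < 1) (hD : 1 ≤ D) {θ : ℝ}
    (hu : ∀ x : ∀ k, FD (S.F k) (Mon M D), (gaq s.Q D).OptfK (KC R) (cnA s (dp R) c) x → Ue s.Q x θ)
    {y : ∀ k, FD ((ofZM (clab s h0 h1)).sp.F k) (Mon M D)}
    (hy : (gaq (ofZM (clab s h0 h1)).sys.Q D).OptfK (KC (zR (ofZM (clab s h0 h1)) R)) (cnA (ofZM (clab s h0 h1)).sys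
        (dp (zR (ofZM (clab s h0 h1)) R)) 0) y) : Ue (ofZM (clab s h0 h1)).sys.Q y ((θ - c) / (1 - c)) := by
  have hx := optD_out (ofZM (clab s h0 h1)) (clab_leak s h0 h1 hlit) (clab_kz s h0 h1 hlit) le_rfl hy
  have e1 : (ofZM (clab s h0 h1)).c + (ofZM (clab s h0 h1)).e * 0 = c := by
    rw [mul_zero, add_zero]
    rfl
  rw [e1] at hx
  exact ue_zw (ofZM (clab s h0 h1)) hD hy.1.1 (hu _ hx)

/-- the conditions of the affine zoom -/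
theorem aff_ct (s : MSys S M E ι) (R : ∀ k, Setoid (S.F k).Ω) {c : ℝ} (h0 : 0 ≤ c) (h1 : c < 1) (hc : 0 < c) {t : ℝ}
    (ht0 : 0 < t) (ht1 : t ≤ 1) {g : ℕ} (hg : 1 ≤ g) (hr : (1 - c) * t ≤ c * g) (he : ∀ i, (s.lf i).e ≤ g) :
    cnA (aff (clab s h0 h1) hc ht0 ht1 hg hr he) (dp (rt t ht0 (zR (ofZM (clab s h0 h1)) R))) 0 =
      ct t ht0 (wd (ofZM (clab s h0 h1)).sys (zR (ofZM (clab s h0 h1)) R) 0) := by
  funext i
  rcases i with _ | i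
  · rfl
  · funext k
    have e1 : (((clab s h0 h1).fr (s.lf i).Y).chg (clab s h0 h1).sp.tr t ht0).cellv 0 k =
        ((clab s h0 h1).fr (s.lf i).Y).cellv 0 k := (cellv_chg ((clab s h0 h1).fr (s.lf i).Y) t ht0 0 k).trans
          (by rw [mul_zero])
    exact congrArg (fun f => (fc ((clab s h0 h1).zLa (s.lf i) k ⊓ Setoid.ker f :
      Setoid (((clab s h0 h1).sp.chg (clab s h0 h1).sp.tr t ht0).F k).Ω) :
        FL (((clab s h0 h1).sp.chg (clab s h0 h1).sp.tr t ht0).F k))) e1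

/-- THE DEGREE OF THE K-HULL OF THE WINDOW `c`, the core: exponents `th < 1` over the cells of level `c`,
`(1 - c) th < c g` -/
theorem deg_core {N : ℕ} (hst : ∀ m, m < N + 1 → STu m) {g : ℕ} (hg : 1 ≤ g) : ∃ D₁ : ℕ, 1 ≤ D₁ ∧ ∀ D₀, D₁ ≤ D₀ →
    ∀ (ι : Type) [Finite ι] (E : ℕ → ℕ) (S : Sp) (s : MSys S (N + 1) E ι) (R : ∀ k, Setoid (S.F k).Ω)
      (hlit : Lit R s.Q) (_ : ∀ i, (s.lf i).e ≤ g) (c θ : ℝ) (h0 : 0 < c) (h1 : c < 1), θ < 1 → (1 - c) * θ < c * g →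
      ∀ (D : ℕ) (_ : ∀ y : ∀ k, FD ((ofZM (clab s h0.le h1)).sp.F k) (Mon (N + 1) D),
        (gaq (ofZM (clab s h0.le h1)).sys.Q D).OptfK (KC (zR (ofZM (clab s h0.le h1)) R))
          (cnA (ofZM (clab s h0.le h1)).sys (dp (zR (ofZM (clab s h0.le h1)) R)) 0) y →
            Ue (ofZM (clab s h0.le h1)).sys.Q y θ),
        volC (KC R) (cnA s (dp R) c) s.Q D₀ ≤ volC (KC R) (cnA s (dp R) c) s.Q D := by
  obtain ⟨D₁, hD1, hdg⟩ := Pool.Agent.Helper48.DGR.dgr_lit hst g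
  refine ⟨D₁, hD1, fun D₀ hD0 ι _ E S s R hlit he c θ hc hc1 hθ1 hθ D hu => ?_⟩
  rcases Nat.eq_zero_or_pos D with hD | hD
  · subst hD
    rw [Pool.Agent.Helper7.RD.volC_zero]
    exact Pool.Agent.Helper7.RD.volC_le_M
  have h1c : 0 < 1 - c := by linarith
  have hg0 : (1 : ℝ) ≤ g := by exact_mod_cast hg
  obtain ⟨t, ht⟩ : ∃ t : ℝ, t = min 1 (c * g / (1 - c)) := ⟨_, rfl⟩
  have ht1 : t ≤ 1 := by rw [ht]; exact min_le_left _ _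
  have ht0 : 0 < t := by
    rw [ht]
    exact lt_min one_pos (by positivity)
  have hr : (1 - c) * t ≤ c * g := by
    have h2 : t ≤ c * g / (1 - c) := by rw [ht]; exact min_le_right _ _
    rw [le_div_iff₀ h1c] at h2
    linarith
  have hθt : θ < t := by
    rw [ht, lt_min_iff, lt_div_iff₀ h1c]
    exact ⟨hθ1, by linarith⟩
  rw [vol_cz s hlit hc.le hc1 (hD1.trans hD0), vol_cz s hlit hc.le hc1 hD]
  apply mul_le_mul_of_nonneg_left _ h1c.le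
  refine deg_trn_ue (ofZM (clab s hc.le hc1)).sys (zR (ofZM (clab s hc.le hc1)) R) (lit_zoom _ hlit) ht0 ht1 hθt
    (fun y hy => hu y hy) ?_
  have h2 := hdg D₀ hD0 ι _ (aff (clab s hc.le hc1) hc ht0 ht1 hg hr he)
    (rt t ht0 (zR (ofZM (clab s hc.le hc1)) R)) (lit_zoom (ofZM (clab s hc.le hc1)) hlit) D
  rw [aff_ct s R hc.le hc1 hc ht0 ht1 hg hr he] at h2
  exact h2

/-- the degree of the K-hull of the window `c`: exponents in the coordinate directions less than `1` and `c (1 + g)` -/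
theorem deg_wine {N : ℕ} (hst : ∀ m, m < N + 1 → STu m) {g : ℕ} (hg : 1 ≤ g) : ∃ D₁ : ℕ, 1 ≤ D₁ ∧ ∀ D₀, D₁ ≤ D₀ →
    ∀ (ι : Type) [Finite ι] (E : ℕ → ℕ) (S : Sp) (s : MSys S (N + 1) E ι) (R : ∀ k, Setoid (S.F k).Ω)
      (_ : Lit R s.Q) (_ : ∀ i, (s.lf i).e ≤ g) (c θ : ℝ), 0 < c → c < 1 → θ < 1 → θ < c * (1 + g) →
      ∀ (D : ℕ) (_ : ∀ x : ∀ k, FD (S.F k) (Mon (N + 1) D), (gaq s.Q D).OptfK (KC R) (cnA s (dp R) c) x →
        Ue s.Q x θ), volC (KC R) (cnA s (dp R) c) s.Q D₀ ≤ volC (KC R) (cnA s (dp R) c) s.Q D := by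
  obtain ⟨D₁, hD1, hdg⟩ := deg_core hst hg
  refine ⟨D₁, hD1, fun D₀ hD0 ι _ E S s R hlit he c θ hc hc1 hθ1 hθ D hu => ?_⟩
  rcases Nat.eq_zero_or_pos D with hD | hD
  · subst hD
    rw [Pool.Agent.Helper7.RD.volC_zero]
    exact Pool.Agent.Helper7.RD.volC_le_M
  have h1c : 0 < 1 - c := by linarith
  refine hdg D₀ hD0 ι E S s R hlit he c ((θ - c) / (1 - c)) hc hc1 (by rw [div_lt_one h1c]; linarith) ?_ D
    (fun y hy => ue_cz s hlit hc.le hc1 hD hu hy)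
  rw [mul_div_cancel₀ _ h1c.ne']
  linarith

/-- both bounds: the top exponent less than `1`, the exponent of the volume less than `c (N + g)` -/
theorem deg_winb {N : ℕ} (hst : ∀ m, m < N + 1 → STu m) {g : ℕ} (hg : 1 ≤ g) : ∃ D₁ : ℕ, 1 ≤ D₁ ∧ ∀ D₀, D₁ ≤ D₀ →
    ∀ (ι : Type) [Finite ι] (E : ℕ → ℕ) (S : Sp) (s : MSys S (N + 1) E ι) (R : ∀ k, Setoid (S.F k).Ω)
      (_ : Lit R s.Q) (_ : ∀ i, (s.lf i).e ≤ g) (c θ θ' : ℝ), 0 < c → c < 1 → θ < 1 → θ' < c * ((N : ℝ) + 1 + g) →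
      ∀ (D : ℕ) (_ : ∀ x : ∀ k, FD (S.F k) (Mon (N + 1) D), (gaq s.Q D).OptfK (KC R) (cnA s (dp R) c) x →
        Ue s.Q x θ ∧ Ub s.Q x θ'), volC (KC R) (cnA s (dp R) c) s.Q D₀ ≤ volC (KC R) (cnA s (dp R) c) s.Q D := by
  obtain ⟨D₁, hD1, hdg⟩ := deg_core hst hg
  refine ⟨D₁, hD1, fun D₀ hD0 ι _ E S s R hlit he c θ θ' hc hc1 hθ1 hθ D hu => ?_⟩
  rcases Nat.eq_zero_or_pos D with hD | hD
  · subst hD
    rw [Pool.Agent.Helper7.RD.volC_zero]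
    exact Pool.Agent.Helper7.RD.volC_le_M
  have h1c : 0 < 1 - c := by linarith
  refine hdg D₀ hD0 ι E S s R hlit he c (min ((θ - c) / (1 - c)) ((θ' - ((N + 1 : ℕ) : ℝ) * c) / (1 - c))) hc hc1
    (lt_of_le_of_lt (min_le_left _ _) (by rw [div_lt_one h1c]; linarith)) ?_ D (fun y hy =>
      (ue_cz s hlit hc.le hc1 hD (fun x hx => (hu x hx).1) hy).min
        ((ub_cz s hlit hc.le hc1 hD (fun x hx => (hu x hx).2) hy).ue hy.1.1))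
  refine lt_of_le_of_lt (mul_le_mul_of_nonneg_left (min_le_right _ _) h1c.le) ?_
  rw [mul_div_cancel₀ _ h1c.ne']
  push_cast
  linarith

/-- THE DEGREE OF THE K-HULL OF THE WINDOW `c` is bounded in terms of `g`, if the exponents are less than `c (N + g)` and
than `1`, whatever the complexity of the leaves -/
theorem deg_win {N : ℕ} (hst : ∀ m, m < N + 1 → STu m) {g : ℕ} (hg : 1 ≤ g) : ∃ D₁ : ℕ, 1 ≤ D₁ ∧ ∀ D₀, D₁ ≤ D₀ →
    ∀ (ι : Type) [Finite ι] (E : ℕ → ℕ) (S : Sp) (s : MSys S (N + 1) E ι) (R : ∀ k, Setoid (S.F k).Ω)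
      (_ : Lit R s.Q) (_ : ∀ i, (s.lf i).e ≤ g) (c θ : ℝ), 0 < c → c < 1 → θ < 1 → θ < c * ((N : ℝ) + 1 + g) →
      ∀ (D : ℕ) (_ : ∀ x : ∀ k, FD (S.F k) (Mon (N + 1) D), (gaq s.Q D).OptfK (KC R) (cnA s (dp R) c) x →
        Ub s.Q x θ), volC (KC R) (cnA s (dp R) c) s.Q D₀ ≤ volC (KC R) (cnA s (dp R) c) s.Q D := by
  obtain ⟨D₁, hD1, hdg⟩ := deg_winb hst hg
  exact ⟨D₁, hD1, fun D₀ hD0 ι _ E S s R hlit he c θ hc hc1 hθ1 hθ D hu => hdg D₀ hD0 ι E S s R hlit he c θ θ hc hc1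
    hθ1 hθ D fun x hx => ⟨(hu x hx).ue hx.1.1, hu x hx⟩⟩

end

end Pool.Agent.Helper25.DX
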